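import Mathlib


namespace Pool.Agent.Results.MP_b1acb3_co.CoreThreshold

open Finset

/-! levels and leading differences -/
section levels
variable {A : Type} [AddCommGroup A]

noncomputable def lev (x y : ℕ → A) : ℕ := sInf {i | x i ≠ y i}

theorem lev_ne {x y : ℕ → A} (h : x ≠ y) : x (lev x y) ≠ y (lev x y) := by
  have h1 : ({i | x i ≠ y i} : Set ℕ).Nonempty := Function.ne_iff.mp h
  exact Nat.sInf_mem h1

theorem lev_agree {x y : ℕ → A} {i : ℕ} (h : i < lev x y) : x i = y i := by
  by_contra h'
  exact absurd (Nat.sInf_le (s := {i | x i ≠ y i}) h') (not_le.mpr h)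

theorem lev_eq {x y : ℕ → A} {L : ℕ} (h1 : ∀ i < L, x i = y i) (h2 : x L ≠ y L) :
    lev x y = L := by
  apply le_antisymm (Nat.sInf_le h2)
  by_contra h
  push Not at h
  exact lev_ne (fun h' => h2 (by rw [h'])) (h1 _ h)

theorem lev_comm (x y : ℕ → A) : lev x y = lev y x := by
  unfold lev
  congr 1
  ext i
  exact ne_comm

noncomputable def lc (x y : ℕ → A) : A := x (lev x y) - y (lev x y)

theorem lc_comm (x y : ℕ → A) : lc x y = - lc y x := by
  unfold lc
  rw [lev_comm x y]
  abel

theorem tri_lt {x y z : ℕ → A} (hxy : x ≠ y) (h : lev x y < lev y z) :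
    lev x z = lev x y ∧ lc x z = lc x y := by
  have h1 : lev x z = lev x y := by
    apply lev_eq
    · intro i hi
      rw [lev_agree hi, lev_agree (hi.trans h)]
    · rw [← lev_agree h]
      exact lev_ne hxy
  refine ⟨h1, ?_⟩
  unfold lc
  rw [h1, lev_agree h]

theorem tri_gt {x y z : ℕ → A} (hyz : y ≠ z) (h : lev y z < lev x y) :
    lev x z = lev y z ∧ lc x z = lc y z := by
  have h1 := tri_lt (x := z) (y := y) (z := x) hyz.symm (by rw [lev_comm z y, lev_comm y x]; exact h)
  constructor
  · rw [lev_comm x z, h1.1, lev_comm]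
  · rw [lc_comm x z, h1.2, lc_comm z y, neg_neg]

theorem tri_eq {x y z : ℕ → A} (hxz : x ≠ z) (h : lev x y = lev y z) (h2 : lev x z ≤ lev y z) :
    lev x z = lev y z ∧ lc x z = lc x y + lc y z := by
  have h1 : lev x z = lev y z := by
    apply le_antisymm h2
    by_contra h3
    push Not at h3
    have h4 := lev_ne hxz
    rw [lev_agree (h ▸ h3 : lev x z < lev x y), lev_agree h3] at h4
    exact h4 rfl
  refine ⟨h1, ?_⟩
  unfold lc
  rw [h1, h]
  abel

noncomputable def rank (Λ : Finset ℕ) (l : ℕ) : ℕ := (Λ.filter (· < l)).card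

theorem rank_lt {Λ : Finset ℕ} {l l' : ℕ} (hl : l ∈ Λ) (h : l < l') : rank Λ l < rank Λ l' := by
  apply Finset.card_lt_card
  constructor
  · intro i hi
    simp only [mem_filter] at hi ⊢
    exact ⟨hi.1, hi.2.trans h⟩
  · intro h1
    have := h1 (mem_filter.mpr ⟨hl, h⟩)
    simp at this

theorem rank_lt_iff {Λ : Finset ℕ} {l l' : ℕ} (hl : l ∈ Λ) (hl' : l' ∈ Λ) :
    rank Λ l < rank Λ l' ↔ l < l' := by
  constructor
  · intro h
    by_contra h'
    push Not at h'
    rcases h'.lt_or_eq with h1 | h1
    · exact absurd (rank_lt hl' h1) (by omega)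
    · rw [h1] at h; exact lt_irrefl _ h
  · exact rank_lt hl

/-- code of an injective family of sequences -/
structure IsCode {v : ℕ} (x : Fin v → ℕ → A) (Λ : Finset ℕ) (C : Fin v → Fin v × Fin v × A) :
    Prop where
  lt : ∀ j : Fin v, 0 < (j : ℕ) → (C j).1 < j
  max : ∀ j : Fin v, 0 < (j : ℕ) → ∀ i < j, lev (x i) (x j) ≤ lev (x (C j).1) (x j)
  mem : ∀ j : Fin v, 0 < (j : ℕ) → lev (x (C j).1) (x j) ∈ Λ
  rk : ∀ j : Fin v, 0 < (j : ℕ) → rank Λ (lev (x (C j).1) (x j)) = ((C j).2.1 : ℕ)
  lc : ∀ j : Fin v, 0 < (j : ℕ) → lc (x (C j).1) (x j) = (C j).2.2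

theorem exists_code {v : ℕ} (x : Fin v → ℕ → A) : ∃ Λ C, IsCode x Λ C := by
  classical
  have h1 : ∀ j : Fin v, ∃ p : Fin v, 0 < (j : ℕ) →
      (p < j ∧ ∀ i < j, lev (x i) (x j) ≤ lev (x p) (x j)) := by
    intro j
    by_cases hj : 0 < (j : ℕ)
    · have hne : (univ.filter (fun i : Fin v => i < j)).Nonempty :=
        ⟨⟨0, by omega⟩, mem_filter.mpr ⟨mem_univ _, Fin.lt_def.mpr hj⟩⟩
      obtain ⟨p, hp, hp2⟩ := Finset.exists_max_image _ (fun i => lev (x i) (x j)) hne
      refine ⟨p, fun _ => ⟨by simpa using hp, fun i hi => hp2 i (by simpa using hi)⟩⟩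
    · exact ⟨j, fun h => absurd h hj⟩
  choose p hp using h1
  set Λ : Finset ℕ := (univ.filter (fun j : Fin v => 0 < (j : ℕ))).image
    (fun j => lev (x (p j)) (x j)) with hΛ
  have hcard : ∀ l, 0 < v → rank Λ l < v := by
    intro l hv
    calc rank Λ l ≤ Λ.card := Finset.card_le_card (Finset.filter_subset _ _)
      _ ≤ (univ.filter (fun j : Fin v => 0 < (j : ℕ))).card := Finset.card_image_le
      _ < (univ : Finset (Fin v)).card := by
        apply Finset.card_lt_card
        refine ⟨Finset.filter_subset _ _, fun h => ?_⟩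
        have := h (mem_univ (⟨0, hv⟩ : Fin v))
        simp at this
      _ = v := by simp
  refine ⟨Λ, fun j => (p j, ⟨rank Λ (lev (x (p j)) (x j)), hcard _ (by have := j.2; omega)⟩,
    Pool.Agent.Results.MP_b1acb3_co.CoreThreshold.lc (x (p j)) (x j)), ?_, ?_, ?_, ?_, ?_⟩
  · intro j hj; exact (hp j hj).1
  · intro j hj; exact (hp j hj).2
  · intro j hj
    exact Finset.mem_image.mpr ⟨j, by simpa using hj, rfl⟩
  · intro j hj; rfl
  · intro j hj; rfl

theorem decode {v : ℕ} {x x' : Fin v → ℕ → A} (hx : Function.Injective x)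
    (hx' : Function.Injective x') {Λ Λ' : Finset ℕ} {C : Fin v → Fin v × Fin v × A}
    (h : IsCode x Λ C) (h' : IsCode x' Λ' C) :
    ∀ n : ℕ, ∀ j : Fin v, (j : ℕ) = n → ∀ i < j,
      lev (x i) (x j) ∈ Λ ∧ lev (x' i) (x' j) ∈ Λ' ∧
      rank Λ (lev (x i) (x j)) = rank Λ' (lev (x' i) (x' j)) ∧
      lc (x i) (x j) = lc (x' i) (x' j) := by
  intro n
  induction n using Nat.strong_induction_on with
  | _ n ih =>
    intro j hj i hi
    have hj0 : 0 < (j : ℕ) := lt_of_le_of_lt (Nat.zero_le _) (Fin.lt_def.mp hi)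
    set p := (C j).1 with hp
    have hpj := h.lt j hj0
    rcases eq_or_ne i p with hip | hip
    · rw [hip]
      refine ⟨h.mem j hj0, h'.mem j hj0, ?_, ?_⟩
      · rw [h.rk j hj0, h'.rk j hj0]
      · rw [h.lc j hj0, h'.lc j hj0]
    · -- the pair (i, p)
      have key : lev (x i) (x p) ∈ Λ ∧ lev (x' i) (x' p) ∈ Λ' ∧
          rank Λ (lev (x i) (x p)) = rank Λ' (lev (x' i) (x' p)) ∧
          lc (x i) (x p) = lc (x' i) (x' p) := by
        rcases lt_or_gt_of_ne hip with h1 | h1
        · exact ih p (by rw [← hj]; exact hpj) p rfl i h1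
        · have := ih i (by rw [← hj]; exact hi) i rfl p h1
          rw [lev_comm (x i), lev_comm (x' i), lc_comm (x i), lc_comm (x' i)]
          exact ⟨this.1, this.2.1, this.2.2.1, by rw [this.2.2.2]⟩
      obtain ⟨k1, k2, k3, k4⟩ := key
      have m1 := h.mem j hj0
      have m2 := h'.mem j hj0
      have r12 : rank Λ (lev (x p) (x j)) = rank Λ' (lev (x' p) (x' j)) := by
        rw [h.rk j hj0, h'.rk j hj0]
      have l12 : lc (x p) (x j) = lc (x' p) (x' j) := by rw [h.lc j hj0, h'.lc j hj0]
      have nip : x i ≠ x p := fun e => hip (hx e)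
      have nip' : x' i ≠ x' p := fun e => hip (hx' e)
      have npj : x p ≠ x j := fun e => hpj.ne (hx e)
      have npj' : x' p ≠ x' j := fun e => hpj.ne (hx' e)
      have nij : x i ≠ x j := fun e => hi.ne (hx e)
      have nij' : x' i ≠ x' j := fun e => hi.ne (hx' e)
      rcases lt_trichotomy (lev (x i) (x p)) (lev (x p) (x j)) with hlt | heq | hgt
      · have hlt' : lev (x' i) (x' p) < lev (x' p) (x' j) := by
          rw [← rank_lt_iff k2 m2, ← k3, ← r12, rank_lt_iff k1 m1]; exact hlt
        have t := tri_lt nip hlt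
        have t' := tri_lt nip' hlt'
        rw [t.1, t'.1, t.2, t'.2]
        exact ⟨k1, k2, k3, k4⟩
      · have heq' : lev (x' i) (x' p) = lev (x' p) (x' j) := by
          rcases lt_trichotomy (lev (x' i) (x' p)) (lev (x' p) (x' j)) with a | a | a
          · rw [← rank_lt_iff k2 m2, ← k3, ← r12, heq] at a
            exact absurd a (lt_irrefl _)
          · exact a
          · rw [← rank_lt_iff m2 k2, ← k3, ← r12, heq] at a
            exact absurd a (lt_irrefl _)
        have t := tri_eq nij heq (h.max j hj0 i hi)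
        have t' := tri_eq nij' heq' (h'.max j hj0 i hi)
        rw [t.1, t'.1, t.2, t'.2]
        exact ⟨m1, m2, r12, by rw [k4, l12]⟩
      · have hgt' : lev (x' p) (x' j) < lev (x' i) (x' p) := by
          rw [← rank_lt_iff m2 k2, ← k3, ← r12, rank_lt_iff m1 k1]; exact hgt
        have t := tri_gt npj hgt
        have t' := tri_gt npj' hgt'
        rw [t.1, t'.1, t.2, t'.2]
        exact ⟨m1, m2, r12, l12⟩

/-- the pattern of leading differences -/
noncomputable def pat {v : ℕ} (x : Fin v → ℕ → A) : Fin v → Fin v → A :=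
  fun i j => lc (x i) (x j)

theorem lc_self (y : ℕ → A) : lc y y = 0 := by unfold lc; simp

theorem pat_eq {v : ℕ} {x x' : Fin v → ℕ → A} (hx : Function.Injective x)
    (hx' : Function.Injective x') {Λ Λ' : Finset ℕ} {C : Fin v → Fin v × Fin v × A}
    (h : IsCode x Λ C) (h' : IsCode x' Λ' C) : pat x = pat x' := by
  funext i j
  unfold pat
  rcases lt_trichotomy i j with h1 | h1 | h1
  · exact (decode hx hx' h h' j j rfl i h1).2.2.2
  · rw [h1, lc_self, lc_self]
  · rw [lc_comm, lc_comm (x' i), (decode hx hx' h h' i i rfl j h1).2.2.2]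

open Classical in
theorem card_patterns (v : ℕ) [Fintype A] :
    ((univ : Finset (Fin v → Fin v → A)).filter
      (fun D => ∃ x : Fin v → ℕ → A, Function.Injective x ∧ D = pat x)).card
      ≤ (v * v * Fintype.card A) ^ v := by
  have hch : ∀ D : Fin v → Fin v → A, ∃ C : Fin v → Fin v × Fin v × A,
      (∃ x : Fin v → ℕ → A, Function.Injective x ∧ D = pat x) →
      ∃ (x : Fin v → ℕ → A) (Λ : Finset ℕ), Function.Injective x ∧ D = pat x ∧ IsCode x Λ C := by
    intro D
    by_cases hD : ∃ x : Fin v → ℕ → A, Function.Injective x ∧ D = pat x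
    · obtain ⟨x, hx, hxD⟩ := hD
      obtain ⟨Λ, C, hC⟩ := exists_code x
      exact ⟨C, fun _ => ⟨x, Λ, hx, hxD, hC⟩⟩
    · by_cases hne : Nonempty (Fin v → Fin v × Fin v × A)
      · exact ⟨hne.some, fun h => absurd h hD⟩
      · exact absurd ⟨fun i => (i, i, 0)⟩ hne
  choose F hF using hch
  have hcard : (univ : Finset (Fin v → Fin v × Fin v × A)).card = (v * v * Fintype.card A) ^ v := by
    simp [Fintype.card_prod, mul_assoc]
  rw [← hcard]
  apply Finset.card_le_card_of_injOn F (fun _ _ => mem_coe.mpr (mem_univ _))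
  intro D hD D' hD' hEq
  simp only [coe_filter, mem_univ, true_and, Set.mem_ofPred_eq] at hD hD'
  obtain ⟨x, Λ, hx, hxD, hC⟩ := hF D hD
  obtain ⟨x', Λ', hx', hxD', hC'⟩ := hF D' hD'
  rw [hxD, hxD']
  exact pat_eq hx hx' hC (hEq ▸ hC')

end levels


theorem exists_perm {α E : Type*} [Finite α] (h h' : E ↪ α) :
    ∃ τ : Equiv.Perm α, ∀ e, τ (h e) = h' e := by
  classical
  have := Fintype.ofFinite α
  let e0 : {x // x ∈ Set.range h} ≃ {x // x ∈ Set.range h'} :=
    (Equiv.ofInjective h h.injective).symm.trans (Equiv.ofInjective h' h'.injective)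
  refine ⟨e0.extendSubtype, fun e => ?_⟩
  rw [Equiv.extendSubtype_apply_of_mem e0 (h e) ⟨e, rfl⟩]
  have : (Equiv.ofInjective h h.injective).symm ⟨h e, ⟨e, rfl⟩⟩ = e := by
    rw [Equiv.symm_apply_eq]; rfl
  simp only [e0, Equiv.trans_apply, this]
  rfl

open Classical in
theorem count_rainbow {k : ℕ} {Q E : Type} [Fintype Q] [Fintype E]
    (hQ : Fintype.card Q = k * 2) (κ : E → Q) :
    (univ.filter (fun σ : Q ≃ Fin k × Fin 2 =>
        Function.Injective (fun a => (σ (κ a)).1))).card * (k * 2).descFactorial (Fintype.card E)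
      ≤ (k * 2).factorial * (k.descFactorial (Fintype.card E) * 2 ^ (Fintype.card E)) := by
  by_cases hκ : Function.Injective κ
  · set κ' : E ↪ Q := ⟨κ, hκ⟩ with hκ'
    rcases isEmpty_or_nonempty (E ↪ Fin k × Fin 2) with hem | ⟨⟨h0⟩⟩
    · have : (univ.filter (fun σ : Q ≃ Fin k × Fin 2 =>
        Function.Injective (fun a => (σ (κ a)).1))) = ∅ := by
        apply Finset.filter_false_of_mem
        intro σ _
        exact absurd ⟨κ'.trans σ.toEmbedding⟩ (not_nonempty_iff.mpr hem)
      rw [this]; simp
    · set N : (E ↪ Fin k × Fin 2) → ℕ := fun h =>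
        (univ.filter (fun σ : Q ≃ Fin k × Fin 2 => κ'.trans σ.toEmbedding = h)).card with hN
      have hNN : ∀ h, N h = N h0 := by
        intro h
        obtain ⟨τ, hτ⟩ := exists_perm h h0
        apply Finset.card_bij (fun σ _ => σ.trans τ)
        · intro σ hσ
          rw [mem_filter] at hσ ⊢
          refine ⟨mem_univ _, ?_⟩
          ext1 a
          have : σ (κ a) = h a := by rw [← hσ.2]; rfl
          show τ (σ (κ a)) = h0 a
          rw [this, hτ]
        · intro σ _ σ' _ hh
          ext1 a
          exact τ.injective (by simpa using congrArg (fun e => e a) hh)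
        · intro σ hσ
          rw [mem_filter] at hσ
          refine ⟨σ.trans τ.symm, ?_, ?_⟩
          · rw [mem_filter]
            refine ⟨mem_univ _, ?_⟩
            ext1 a
            have : σ (κ a) = h0 a := by rw [← hσ.2]; rfl
            show τ.symm (σ (κ a)) = h a
            rw [this, ← hτ, Equiv.symm_apply_apply]
          · ext1 a
            simp
      have htot : (k * 2).factorial = (k * 2).descFactorial (Fintype.card E) * N h0 := by
        have e1 : Fintype.card (Q ≃ Fin k × Fin 2) = (k * 2).factorial := by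
          rw [Fintype.card_equiv (Fintype.equivOfCardEq (by rw [hQ]; simp)), hQ]
        have e2 : (univ : Finset (Q ≃ Fin k × Fin 2)).card
            = ∑ h : E ↪ Fin k × Fin 2, N h := by
          rw [Finset.card_eq_sum_card_fiberwise
            (f := fun σ : Q ≃ Fin k × Fin 2 => κ'.trans σ.toEmbedding) (t := univ)
            (fun _ _ => mem_coe.mpr (mem_univ _))]
        rw [← e1, ← Finset.card_univ, e2, Finset.sum_congr rfl (fun h _ => hNN h)]
        rw [Finset.sum_const, smul_eq_mul, Finset.card_univ, Fintype.card_embedding_eq]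
        simp
      set T := univ.filter (fun h : E ↪ Fin k × Fin 2 => Function.Injective (fun a => (h a).1))
        with hT
      have hgood : (univ.filter (fun σ : Q ≃ Fin k × Fin 2 =>
          Function.Injective (fun a => (σ (κ a)).1))).card = T.card * N h0 := by
        rw [Finset.card_eq_sum_card_fiberwise (f := fun σ => κ'.trans σ.toEmbedding) (t := T)]
        · rw [Finset.sum_congr rfl (g := fun _ => N h0)]
          · rw [Finset.sum_const, smul_eq_mul]
          · intro h hh
            rw [← hNN h, hN]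
            congr 1
            ext σ
            simp only [mem_filter, mem_univ, true_and, and_iff_right_iff_imp]
            intro h1
            rw [hT, mem_filter] at hh
            have h2 := hh.2
            rw [← h1] at h2
            exact h2
        · intro σ hσ
          rw [mem_coe, mem_filter] at hσ
          rw [hT]
          exact mem_coe.mpr (mem_filter.mpr ⟨mem_univ _, hσ.2⟩)
      have hTcard : T.card ≤ k.descFactorial (Fintype.card E) * 2 ^ (Fintype.card E) := by
        have h1 : Fintype.card ((E ↪ Fin k) × (E → Fin 2))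
            = k.descFactorial (Fintype.card E) * 2 ^ (Fintype.card E) := by
          rw [Fintype.card_prod, Fintype.card_embedding_eq, Fintype.card_fun]; simp
        rw [← h1, ← Fintype.card_coe]
        apply Fintype.card_le_of_injective
          (fun h : T => ((⟨fun a => (h.1 a).1, (mem_filter.mp h.2).2⟩ : E ↪ Fin k),
            fun a => (h.1 a).2))
        intro h h' hh
        apply Subtype.ext
        ext1 a
        simp only [Prod.mk.injEq, Function.Embedding.mk.injEq] at hh
        exact Prod.ext (congrFun hh.1 a) (congrFun hh.2 a)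
      rw [hgood, htot]
      calc T.card * N h0 * (k * 2).descFactorial (Fintype.card E)
          = (k * 2).descFactorial (Fintype.card E) * N h0 * T.card := by ring
        _ ≤ _ := Nat.mul_le_mul_left _ hTcard
  · have : (univ.filter (fun σ : Q ≃ Fin k × Fin 2 =>
        Function.Injective (fun a => (σ (κ a)).1))) = ∅ := by
      apply Finset.filter_false_of_mem
      intro σ _ h
      apply hκ
      intro a b hab
      apply h
      simp only [hab]
    rw [this]; simp

open Classical in
/-- union bound -/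
theorem exists_sigma {k : ℕ} {Q E ι : Type} [Fintype Q] [Fintype E]
    (hQ : Fintype.card Q = k * 2) (S : Finset ι) (κ : ι → E → Q)
    (hS : S.card * (k.descFactorial (Fintype.card E) * 2 ^ (Fintype.card E))
      < (k * 2).descFactorial (Fintype.card E)) :
    ∃ σ : Q ≃ Fin k × Fin 2, ∀ D ∈ S, ¬ Function.Injective (fun a => (σ (κ D a)).1) := by
  by_contra hcon
  push Not at hcon
  have h1 : (univ : Finset (Q ≃ Fin k × Fin 2)) ⊆ S.biUnion (fun D =>
      univ.filter (fun σ : Q ≃ Fin k × Fin 2 => Function.Injective (fun a => (σ (κ D a)).1))) := by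
    intro σ _
    obtain ⟨D, hD, h⟩ := hcon σ
    exact mem_biUnion.mpr ⟨D, hD, mem_filter.mpr ⟨mem_univ _, h⟩⟩
  have h2 := (Finset.card_le_card h1).trans Finset.card_biUnion_le
  have e1 : (univ : Finset (Q ≃ Fin k × Fin 2)).card = (k * 2).factorial := by
    rw [Finset.card_univ, Fintype.card_equiv (Fintype.equivOfCardEq (by rw [hQ]; simp)), hQ]
  rw [e1] at h2
  have h3 : (k * 2).factorial * (k * 2).descFactorial (Fintype.card E) ≤
      (k * 2).factorial * (S.card *
        (k.descFactorial (Fintype.card E) * 2 ^ (Fintype.card E))) := by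
    calc (k * 2).factorial * (k * 2).descFactorial (Fintype.card E)
        ≤ (∑ D ∈ S, (univ.filter (fun σ : Q ≃ Fin k × Fin 2 =>
            Function.Injective (fun a => (σ (κ D a)).1))).card)
            * (k * 2).descFactorial (Fintype.card E) := Nat.mul_le_mul_right _ h2
      _ = ∑ D ∈ S, (univ.filter (fun σ : Q ≃ Fin k × Fin 2 =>
            Function.Injective (fun a => (σ (κ D a)).1))).card
            * (k * 2).descFactorial (Fintype.card E) := by rw [Finset.sum_mul]
      _ ≤ ∑ D ∈ S, (k * 2).factorial *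
            (k.descFactorial (Fintype.card E) * 2 ^ (Fintype.card E)) :=
          Finset.sum_le_sum (fun D _ => count_rainbow hQ (κ D))
      _ = _ := by rw [Finset.sum_const, smul_eq_mul]; ring
  have h4 := Nat.le_of_mul_le_mul_left h3 (Nat.factorial_pos _)
  omega

theorem numeric1 {k N : ℕ} (hk : 1 ≤ k) (h : N * (k * (k + 1)) < 2 ^ k) :
    N * (k.descFactorial (k - 1) * 2 ^ (k - 1)) < (k * 2).descFactorial (k - 1) := by
  obtain ⟨n, rfl⟩ : ∃ n, k = n + 1 := ⟨k - 1, by omega⟩
  simp only [Nat.add_sub_cancel]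
  have d1 : (n + 1).descFactorial n = (n + 1).factorial := by
    have := Nat.factorial_mul_descFactorial (show n ≤ n + 1 by omega)
    simpa using this
  have d2 : (n + 2).factorial * ((n + 1) * 2).descFactorial n = ((n + 1) * 2).factorial := by
    have := Nat.factorial_mul_descFactorial (show n ≤ (n + 1) * 2 by omega)
    rwa [show (n + 1) * 2 - n = n + 2 by omega] at this
  have d3 : (n + 1).centralBinom * (n + 1).factorial * (n + 1).factorial
      = ((n + 1) * 2).factorial := by
    have := Nat.choose_mul_factorial_mul_factorial (show n + 1 ≤ 2 * (n + 1) by omega)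
    rw [show 2 * (n + 1) - (n + 1) = n + 1 by omega] at this
    rw [Nat.centralBinom, mul_comm (n + 1) 2]
    exact this
  have d4 := Nat.four_pow_le_two_mul_self_mul_centralBinom (n + 1) (by omega)
  rw [d1]
  apply Nat.lt_of_mul_lt_mul_left (a := (n + 2).factorial)
  rw [d2, ← d3]
  have hF : (n + 2).factorial = (n + 2) * (n + 1).factorial := Nat.factorial_succ _
  rw [hF]
  have hmain : N * ((n + 2) * 2 ^ n) < (n + 1).centralBinom := by
    have e1 : (4 : ℕ) ^ (n + 1) = 2 ^ (n + 1) * 2 ^ (n + 1) := by
      rw [← mul_pow]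
      norm_num
    rw [e1] at d4
    by_contra hc
    push Not at hc
    have h5 : 2 * (n + 1) * (n + 1).centralBinom ≤ 2 * (n + 1) * (N * ((n + 2) * 2 ^ n)) :=
      Nat.mul_le_mul_left _ hc
    have h6 : 2 * (n + 1) * (N * ((n + 2) * 2 ^ n)) = (N * ((n + 1) * (n + 1 + 1))) * 2 ^ (n + 1) := by
      rw [pow_succ]; ring
    have h7 : (N * ((n + 1) * (n + 1 + 1))) * 2 ^ (n + 1) < 2 ^ (n + 1) * 2 ^ (n + 1) :=
      Nat.mul_lt_mul_of_pos_right h (by positivity)
    omega
  have hf0 : 0 < (n + 1).factorial * (n + 1).factorial := by positivity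
  calc (n + 2) * (n + 1).factorial * (N * ((n + 1).factorial * 2 ^ n))
      = (N * ((n + 2) * 2 ^ n)) * ((n + 1).factorial * (n + 1).factorial) := by ring
    _ < (n + 1).centralBinom * ((n + 1).factorial * (n + 1).factorial) :=
        Nat.mul_lt_mul_of_pos_right hmain hf0
    _ = _ := by ring

theorem numeric2 {v e : ℕ} (hv : 2 ≤ v) (he : 2 * e ≤ v * (v - 1)) (h : v ^ (5 * v) ≤ 2 ^ e) :
    (v * v * (4 * e + 5)) ^ v * ((e + 1) * (e + 1 + 1)) < 2 ^ (e + 1) := by
  have h1 : 5 * v ≤ e := by
    have : (2 : ℕ) ^ (5 * v) ≤ 2 ^ e := (Nat.pow_le_pow_left hv _).trans h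
    exact (Nat.pow_le_pow_iff_right (by norm_num)).mp this
  obtain ⟨w, rfl⟩ : ∃ w, v = w + 1 := ⟨v - 1, by omega⟩
  simp only [Nat.add_sub_cancel] at he
  have h2 : 10 ≤ w := by nlinarith
  have h3 : 4 * e + 5 ≤ 2 * ((w + 1) * (w + 1)) := by nlinarith
  have h4 : (e + 1) * (e + 1 + 1) ≤ (w + 1) ^ 4 := by
    have h5 : e + 2 ≤ (w + 1) * (w + 1) := by nlinarith
    calc (e + 1) * (e + 1 + 1) ≤ ((w + 1) * (w + 1)) * ((w + 1) * (w + 1)) :=
          Nat.mul_le_mul (by omega) (by omega)
      _ = _ := by ring
  set v := w + 1 with hvw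
  have h6 : (v * v * (4 * e + 5)) ^ v ≤ 2 ^ v * v ^ (4 * v) := by
    calc (v * v * (4 * e + 5)) ^ v ≤ (2 * v ^ 4) ^ v := by
          apply Nat.pow_le_pow_left
          calc v * v * (4 * e + 5) ≤ v * v * (2 * (v * v)) := Nat.mul_le_mul_left _ h3
            _ = 2 * v ^ 4 := by ring
      _ = 2 ^ v * v ^ (4 * v) := by rw [mul_pow, ← pow_mul]
  have h7 : 2 ^ v * v ^ 4 < 2 * v ^ v := by
    have e1 : v ^ v = v ^ (v - 4) * v ^ 4 := by
      rw [← pow_add]; congr 1; omega
    rw [e1, ← mul_assoc]
    apply Nat.mul_lt_mul_of_pos_right _ (by positivity)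
    calc 2 ^ v < 2 * 8 ^ (v - 4) := by
          rw [show (8 : ℕ) = 2 ^ 3 by norm_num, ← pow_mul, ← pow_succ']
          apply Nat.pow_lt_pow_right (by norm_num)
          omega
      _ ≤ 2 * v ^ (v - 4) := Nat.mul_le_mul_left _ (Nat.pow_le_pow_left (by omega) _)
  calc (v * v * (4 * e + 5)) ^ v * ((e + 1) * (e + 1 + 1))
      ≤ (2 ^ v * v ^ (4 * v)) * v ^ 4 := Nat.mul_le_mul h6 h4
    _ = v ^ (4 * v) * (2 ^ v * v ^ 4) := by ring
    _ < v ^ (4 * v) * (2 * v ^ v) := Nat.mul_lt_mul_of_pos_left h7 (by positivity)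
    _ = 2 * v ^ (5 * v) := by rw [show 5 * v = 4 * v + v by ring, pow_add]; ring
    _ ≤ 2 * 2 ^ e := Nat.mul_le_mul_left _ h
    _ = 2 ^ (e + 1) := by rw [pow_succ]; ring

/-! finite sequences as sequences -/
section seqs
variable {A : Type} [AddCommGroup A]

def ext {t : ℕ} (x : Fin t → A) : ℕ → A := fun i => if h : i < t then x ⟨i, h⟩ else 0

theorem ext_injective {t : ℕ} : Function.Injective (ext : (Fin t → A) → ℕ → A) := by
  intro x y h
  funext i
  have := congrFun h i
  simpa [ext, i.2] using this

theorem ext_cons_zero {t : ℕ} (a : A) (z : Fin t → A) :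
    ext (Fin.cons a z : Fin (t + 1) → A) 0 = a := by
  simp [ext]

theorem ext_cons_succ {t : ℕ} (a : A) (z : Fin t → A) (i : ℕ) :
    ext (Fin.cons a z : Fin (t + 1) → A) (i + 1) = ext z i := by
  unfold ext
  by_cases h : i < t
  · rw [dif_pos (by omega : i + 1 < t + 1), dif_pos h]
    exact Fin.cons_succ (α := fun _ => A) a z ⟨i, h⟩
  · rw [dif_neg (by omega), dif_neg h]

theorem lc_cons_ne {t : ℕ} {a b : A} (h : a ≠ b) (z w : Fin t → A) :
    lc (ext (Fin.cons a z : Fin (t + 1) → A)) (ext (Fin.cons b w : Fin (t + 1) → A)) = a - b := by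
  have h1 : lev (ext (Fin.cons a z : Fin (t + 1) → A)) (ext (Fin.cons b w : Fin (t + 1) → A)) = 0 :=
    lev_eq (fun i hi => absurd hi (Nat.not_lt_zero _)) (by rw [ext_cons_zero, ext_cons_zero]; exact h)
  unfold lc
  rw [h1, ext_cons_zero, ext_cons_zero]

theorem lc_cons_eq {t : ℕ} (a : A) {z w : Fin t → A} (h : z ≠ w) :
    lc (ext (Fin.cons a z : Fin (t + 1) → A)) (ext (Fin.cons a w : Fin (t + 1) → A))
      = lc (ext z) (ext w) := by
  have h0 : ext z ≠ ext w := fun e => h (ext_injective e)
  have h1 : lev (ext (Fin.cons a z : Fin (t + 1) → A)) (ext (Fin.cons a w : Fin (t + 1) → A))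
      = lev (ext z) (ext w) + 1 := by
    apply lev_eq
    · intro i hi
      cases i with
      | zero => rw [ext_cons_zero, ext_cons_zero]
      | succ i =>
        rw [ext_cons_succ, ext_cons_succ]
        exact lev_agree (by omega)
    · rw [ext_cons_succ, ext_cons_succ]
      exact lev_ne h0
  unfold lc
  rw [h1, ext_cons_succ, ext_cons_succ]

open Classical in
theorem count_shift [Fintype A] {k r : ℕ} (φ : A → Fin k)
    (hφ : ∀ c, (univ.filter (fun d : A => d ≠ 0 ∧ φ d = c)).card = r) (a : A) (c : Fin k) :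
    (univ.filter (fun b : A => b ≠ a ∧ φ (a - b) = c)).card = r := by
  rw [← hφ c]
  apply Finset.card_bij (fun b _ => a - b)
  · intro b hb
    simp only [mem_filter, mem_univ, true_and] at hb ⊢
    exact ⟨sub_ne_zero.mpr hb.1.symm, hb.2⟩
  · intro b _ b' _ h
    simpa using h
  · intro d hd
    simp only [mem_filter, mem_univ, true_and] at hd
    refine ⟨a - d, ?_, by abel⟩
    simp only [mem_filter, mem_univ, true_and]
    refine ⟨fun h => hd.1 (by simpa using h), by rw [sub_sub_cancel]; exact hd.2⟩

open Classical in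
theorem balanced_count [Fintype A] {k r : ℕ} (φ : A → Fin k)
    (hφ : ∀ c, (univ.filter (fun d : A => d ≠ 0 ∧ φ d = c)).card = r)
    (hr : k * r + 1 = Fintype.card A) (t : ℕ) (x : Fin t → A) (c : Fin k) :
    k * (univ.filter (fun y : Fin t → A => y ≠ x ∧ φ (lc (ext x) (ext y)) = c)).card + 1
      = Fintype.card A ^ t := by
  induction t with
  | zero =>
    have : (univ.filter (fun y : Fin 0 → A => y ≠ x ∧ φ (lc (ext x) (ext y)) = c)) = ∅ := by
      apply Finset.filter_false_of_mem
      intro y _ h
      exact h.1 (Subsingleton.elim _ _)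
    rw [this]; simp
  | succ t ih =>
    obtain ⟨a, z, rfl⟩ : ∃ a z, x = Fin.cons a z := ⟨x 0, Fin.tail x, (Fin.cons_self_tail x).symm⟩
    set M := Fintype.card A ^ t with hM
    set N := (univ.filter (fun y : Fin t → A => y ≠ z ∧ φ (lc (ext z) (ext y)) = c)).card with hN
    have hmain : (univ.filter (fun y : Fin (t + 1) → A => y ≠ (Fin.cons a z : Fin (t + 1) → A) ∧
        φ (lc (ext (Fin.cons a z : Fin (t + 1) → A)) (ext y)) = c)).card = N + r * M := by
      rw [Finset.card_filter, ← Equiv.sum_comp (Fin.consEquiv (fun _ : Fin (t + 1) => A)),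
        Fintype.sum_prod_type]
      have hin : ∀ b : A, (∑ w : Fin t → A,
          (if (Fin.consEquiv (fun _ : Fin (t + 1) => A)) (b, w) ≠ (Fin.cons a z : Fin (t + 1) → A) ∧
            φ (lc (ext (Fin.cons a z : Fin (t + 1) → A))
              (ext ((Fin.consEquiv (fun _ : Fin (t + 1) => A)) (b, w)))) = c then 1 else 0))
          = (if b = a then N else 0) + (if b ≠ a ∧ φ (a - b) = c then M else 0) := by
        intro b
        by_cases hb : b = a
        · subst hb
          rw [if_pos rfl, if_neg (by simp), add_zero, hN, Finset.card_filter]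
          apply Finset.sum_congr rfl
          intro w _
          have e1 : (Fin.consEquiv (fun _ : Fin (t + 1) => A)) (b, w)
              = (Fin.cons b w : Fin (t + 1) → A) := rfl
          rw [e1]
          by_cases hw : w = z
          · subst hw; simp
          · have e2 : ((Fin.cons b w : Fin (t + 1) → A) ≠ Fin.cons b z) := by
              intro h; exact hw (Fin.cons_injective2 h).2
            rw [lc_cons_eq b (Ne.symm hw)]
            simp [hw]
        · rw [if_neg hb, zero_add]
          have e0 : ∀ w : Fin t → A,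
              (if (Fin.consEquiv (fun _ : Fin (t + 1) => A)) (b, w)
                ≠ (Fin.cons a z : Fin (t + 1) → A) ∧
                φ (lc (ext (Fin.cons a z : Fin (t + 1) → A))
                (ext ((Fin.consEquiv (fun _ : Fin (t + 1) => A)) (b, w)))) = c then 1 else 0)
              = (if b ≠ a ∧ φ (a - b) = c then 1 else 0) := by
            intro w
            have e1 : (Fin.consEquiv (fun _ : Fin (t + 1) => A)) (b, w)
              = (Fin.cons b w : Fin (t + 1) → A) := rfl
            rw [e1, lc_cons_ne (Ne.symm hb)]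
            have e2 : ((Fin.cons b w : Fin (t + 1) → A) ≠ Fin.cons a z) := by
              intro h; exact hb (Fin.cons_injective2 h).1
            simp [e2, hb]
          rw [Finset.sum_congr rfl (fun w _ => e0 w), Finset.sum_const, Finset.card_univ]
          have e3 : Fintype.card (Fin t → A) = M := by simp [hM]
          rw [e3]
          split_ifs <;> simp
      rw [Finset.sum_congr rfl (fun b _ => hin b), Finset.sum_add_distrib]
      have s1 : ∑ b : A, (if b = a then N else 0) = N := by simp
      have s2 : ∑ b : A, (if b ≠ a ∧ φ (a - b) = c then M else 0) = r * M := by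
        rw [← Finset.sum_filter, Finset.sum_const, count_shift φ hφ a c, smul_eq_mul]
      rw [s1, s2]
    rw [hmain]
    have h1 := ih z
    rw [pow_succ, ← hM, ← hr]
    have h2 : k * N + 1 = M := h1
    calc k * (N + r * M) + 1 = (k * N + 1) + k * r * M := by ring
      _ = M * (k * r + 1) := by rw [h2]; ring

end seqs

/-! the cyclic group -/
section cyc

def cls (k : ℕ) (hk : 1 ≤ k) (d : ZMod (4 * k + 1)) : Fin (k * 2) :=
  ⟨(d.valMinAbs.natAbs - 1) % (k * 2), Nat.mod_lt _ (by omega)⟩

theorem cls_neg (k : ℕ) (hk : 1 ≤ k) (d : ZMod (4 * k + 1)) : cls k hk (-d) = cls k hk d := by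
  apply Fin.ext
  show ((-d).valMinAbs.natAbs - 1) % (k * 2) = (d.valMinAbs.natAbs - 1) % (k * 2)
  rw [ZMod.natAbs_valMinAbs_neg]

theorem cls_cast (k : ℕ) (hk : 1 ≤ k) (j : Fin (k * 2)) :
    cls k hk (((j : ℕ) + 1 : ℕ) : ZMod (4 * k + 1)) = j := by
  have h : (((j : ℕ) + 1 : ℕ) : ZMod (4 * k + 1)).valMinAbs = ((j : ℕ) + 1 : ℕ) :=
    ZMod.valMinAbs_natCast_of_le_half (by omega)
  apply Fin.ext
  show ((((j : ℕ) + 1 : ℕ) : ZMod (4 * k + 1)).valMinAbs.natAbs - 1) % (k * 2) = (j : ℕ)
  rw [h]
  simp only [Int.natAbs_natCast, Nat.add_sub_cancel]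
  exact Nat.mod_eq_of_lt j.2

open Classical in
theorem count_colour (k : ℕ) (hk : 1 ≤ k) (σ : Fin (k * 2) ≃ Fin k × Fin 2) (c : Fin k) :
    (univ.filter (fun d : ZMod (4 * k + 1) => d ≠ 0 ∧ (σ (cls k hk d)).1 = c)).card = 4 := by
  set ψ : Fin (k * 2) × Bool → ZMod (4 * k + 1) := fun p =>
    if p.2 then (((p.1 : ℕ) + 1 : ℕ) : ZMod (4 * k + 1)) else -(((p.1 : ℕ) + 1 : ℕ) : ZMod (4 * k + 1))
    with hψ
  have hcls : ∀ p, cls k hk (ψ p) = p.1 := by
    rintro ⟨j, b⟩
    cases b
    · simp only [hψ, Bool.false_eq_true, if_false]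
      rw [cls_neg, cls_cast]
    · simp only [hψ, if_true]
      rw [cls_cast]
  have hnz : ∀ j : Fin (k * 2), (((j : ℕ) + 1 : ℕ) : ZMod (4 * k + 1)) ≠ 0 := by
    intro j h
    rw [ZMod.natCast_eq_zero_iff] at h
    have := Nat.le_of_dvd (by omega) h
    omega
  have hne : ∀ p, ψ p ≠ 0 := by
    rintro ⟨j, b⟩
    cases b
    · simp only [hψ, Bool.false_eq_true, if_false]
      exact neg_ne_zero.mpr (hnz j)
    · simp only [hψ, if_true]
      exact hnz j
  have hinj : Function.Injective ψ := by
    rintro ⟨j, b⟩ ⟨j', b'⟩ h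
    have h1 : (j, b).1 = (j', b').1 := by rw [← hcls (j, b), ← hcls (j', b'), h]
    simp only at h1
    subst h1
    have h2 : (((j : ℕ) + 1 : ℕ) : ZMod (4 * k + 1)) ≠ -(((j : ℕ) + 1 : ℕ) : ZMod (4 * k + 1)) := by
      intro h3
      have h4 : (((2 * ((j : ℕ) + 1)) : ℕ) : ZMod (4 * k + 1)) = 0 := by
        push_cast
        push_cast at h3
        linear_combination h3
      rw [ZMod.natCast_eq_zero_iff] at h4
      have := Nat.le_of_dvd (by omega) h4
      omega
    cases b <;> cases b'
    · rfl
    · simp only [hψ, Bool.false_eq_true, if_false, if_true] at h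
      exact absurd h.symm h2
    · simp only [hψ, Bool.false_eq_true, if_false, if_true] at h
      exact absurd h h2
    · rfl
  have hsurj : (univ : Finset (Fin (k * 2) × Bool)).image ψ
      = univ.filter (fun d : ZMod (4 * k + 1) => d ≠ 0) := by
    apply Finset.eq_of_subset_of_card_le
    · intro d hd
      obtain ⟨p, _, rfl⟩ := Finset.mem_image.mp hd
      simp [hne p]
    · rw [Finset.card_image_of_injective _ hinj, Finset.filter_ne']
      simp [ZMod.card]
      omega
  have himg : univ.filter (fun d : ZMod (4 * k + 1) => d ≠ 0 ∧ (σ (cls k hk d)).1 = c)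
      = (univ.filter (fun p : Fin (k * 2) × Bool => (σ p.1).1 = c)).image ψ := by
    ext d
    simp only [mem_filter, mem_univ, true_and, mem_image]
    constructor
    · rintro ⟨h1, h2⟩
      have h3 : d ∈ (univ : Finset (Fin (k * 2) × Bool)).image ψ := by
        rw [hsurj]; simp [h1]
      obtain ⟨p, _, rfl⟩ := Finset.mem_image.mp h3
      rw [hcls] at h2
      exact ⟨p, h2, rfl⟩
    · rintro ⟨p, hp, rfl⟩
      refine ⟨hne p, by rw [hcls]; exact hp⟩
  rw [himg, Finset.card_image_of_injective _ hinj]
  have h5 : (univ.filter (fun p : Fin (k * 2) × Bool => (σ p.1).1 = c))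
      = (univ.filter (fun j : Fin (k * 2) => (σ j).1 = c)) ×ˢ (univ : Finset Bool) := by
    ext p
    simp
  have h6 : (univ.filter (fun j : Fin (k * 2) => (σ j).1 = c)).card = 2 := by
    have : (univ.filter (fun j : Fin (k * 2) => (σ j).1 = c)).card
        = ((univ : Finset (Fin 2)).image (fun b => (c, b))).card := by
      apply Finset.card_bij (fun j _ => σ j)
      · intro j hj
        simp only [mem_filter, mem_univ, true_and] at hj
        rw [Finset.mem_image]
        exact ⟨(σ j).2, mem_univ _, by rw [← hj]⟩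
      · intro j _ j' _ h; exact σ.injective h
      · intro p hp
        obtain ⟨b, _, rfl⟩ := Finset.mem_image.mp hp
        exact ⟨σ.symm (c, b), by simp, by simp⟩
    rw [this, Finset.card_image_of_injective _ (fun a b h => by simpa using h)]
    simp
  rw [h5, Finset.card_product, h6]
  simp

end cyc
/-! the statement -/

/-- A colouring of the edges of the complete graph on `n` vertices with `k` colours:
a symmetric map (its values on the diagonal carry no meaning and are never used). -/
structure EdgeColouring (n k : ℕ) where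
  col : Fin n → Fin n → Fin k
  symm : ∀ x y, col x y = col y x

namespace EdgeColouring
variable {n k : ℕ}

/-- the number of edges at the vertex `x` that have colour `i` -/
def deg (c : EdgeColouring n k) (x : Fin n) (i : Fin k) : ℕ :=
  (univ.filter (fun y => y ≠ x ∧ c.col x y = i)).card

/-- every colour appears at every vertex on at least `(1 - ε) n / k` edges -/
def Balanced (c : EdgeColouring n k) (ε : ℝ) : Prop :=
  ∀ (x : Fin n) (i : Fin k), (1 - ε) * n / k ≤ (c.deg x i : ℝ)

/-- every colour appears at every vertex on exactly `(n - 1) / k` edges -/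
def CompletelyBalanced (c : EdgeColouring n k) : Prop :=
  ∀ (x : Fin n) (i : Fin k), c.deg x i * k + 1 = n

/-- there is a copy of `G` whose edges have pairwise distinct colours -/
def HasRainbow {V : Type} (c : EdgeColouring n k) (G : SimpleGraph V) : Prop :=
  ∃ f : V ↪ Fin n, ∀ a b a' b' : V, G.Adj a b → G.Adj a' b' →
    c.col (f a) (f b) = c.col (f a') (f b') → s(a, b) = s(a', b')

end EdgeColouring

/-- the property of `G` asked for by Erdos and Tuza -/
def Forced {V : Type} (G : SimpleGraph V) : Prop :=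
  ∃ ε : ℝ, 0 < ε ∧ ∃ n₀ : ℕ, ∀ n ≥ n₀, ∀ c : EdgeColouring n (G.edgeSet.ncard + 1),
    c.Balanced ε → c.HasRainbow G

/-- the general construction: `k` colours, no rainbow copy of `H` -/
theorem main {W : Type} [Fintype W] (H : SimpleGraph W) {k : ℕ} (hk1 : 1 ≤ k)
    (hnum : (Fintype.card W * Fintype.card W * (4 * k + 1)) ^ Fintype.card W *
      (k.descFactorial H.edgeSet.ncard * 2 ^ H.edgeSet.ncard)
        < (k * 2).descFactorial H.edgeSet.ncard) (t : ℕ) :
    ∃ c : EdgeColouring ((4 * k + 1) ^ t) k, c.CompletelyBalanced ∧ ¬ c.HasRainbow H := by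
  classical
  set v := Fintype.card W with hv
  have hEc : Fintype.card H.edgeSet = H.edgeSet.ncard := by
    rw [Set.ncard_eq_toFinset_card', Set.toFinset_card]
  have g : W ≃ Fin v := Fintype.equivFinOfCardEq hv.symm
  set S := (univ : Finset (Fin v → Fin v → ZMod (4 * k + 1))).filter
      (fun D => ∃ x : Fin v → ℕ → ZMod (4 * k + 1), Function.Injective x ∧ D = pat x) with hS
  have hScard : S.card ≤ (v * v * (4 * k + 1)) ^ v := by
    have := card_patterns (A := ZMod (4 * k + 1)) v
    rw [ZMod.card] at this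
    convert this
  have hn2 : S.card * (k.descFactorial (Fintype.card H.edgeSet) * 2 ^ (Fintype.card H.edgeSet))
      < (k * 2).descFactorial (Fintype.card H.edgeSet) := by
    rw [hEc]
    exact lt_of_le_of_lt (Nat.mul_le_mul_right _ hScard) hnum
  have hrep : ∀ s : H.edgeSet, ∃ a b : W, s.1 = s(a, b) := by
    rintro ⟨s, hs⟩
    induction s using Sym2.ind with
    | _ a b => exact ⟨a, b, rfl⟩
  choose fa fb hab using hrep
  obtain ⟨σ, hσ⟩ := exists_sigma (E := H.edgeSet) (k := k) (Q := Fin (k * 2)) (by simp) S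
    (fun D s => cls k hk1 (D (g (fa s)) (g (fb s)))) hn2
  set φ : ZMod (4 * k + 1) → Fin k := fun d => (σ (cls k hk1 d)).1 with hφ
  have gt : Fin ((4 * k + 1) ^ t) ≃ (Fin t → ZMod (4 * k + 1)) :=
    (Fintype.equivFinOfCardEq (by simp [ZMod.card])).symm
  refine ⟨⟨fun x y => φ (lc (ext (gt x)) (ext (gt y))), ?_⟩, ?_, ?_⟩
  · intro x y
    simp only [hφ]
    rw [lc_comm, cls_neg]
  · intro x i
    have hb := balanced_count φ (r := 4) (fun c => by
      have := count_colour k hk1 σ c
      convert this) (by rw [ZMod.card]; ring) t (gt x) i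
    rw [ZMod.card] at hb
    refine Eq.trans ?_ hb
    refine Eq.trans ?_ (congrArg (· + 1) (mul_comm _ _))
    congr 2
    unfold EdgeColouring.deg
    apply Finset.card_bij (fun y _ => gt y)
    · intro y hy
      simp only [mem_filter, mem_univ, true_and] at hy ⊢
      exact ⟨fun h => hy.1 (gt.injective h), hy.2⟩
    · intro y _ y' _ hh; exact gt.injective hh
    · intro z hz
      simp only [mem_filter, mem_univ, true_and] at hz
      refine ⟨gt.symm z, ?_, by simp⟩
      simp only [mem_filter, mem_univ, true_and, Equiv.apply_symm_apply]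
      exact ⟨fun h => hz.1 (by rw [← h]; simp), hz.2⟩
  · rintro ⟨f, hf⟩
    set x : Fin v → ℕ → ZMod (4 * k + 1) := fun i => ext (gt (f (g.symm i))) with hx
    have hxinj : Function.Injective x := by
      intro i j hij
      exact g.symm.injective (f.injective (gt.injective (ext_injective hij)))
    have hmem : pat x ∈ S := mem_filter.mpr ⟨mem_univ _, x, hxinj, rfl⟩
    apply hσ _ hmem
    intro s s' hss
    apply Subtype.ext
    rw [hab s, hab s']
    apply hf
    · rw [← SimpleGraph.mem_edgeSet, ← hab s]; exact s.2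
    · rw [← SimpleGraph.mem_edgeSet, ← hab s']; exact s'.2
    · have e1 : ∀ s : H.edgeSet, pat x (g (fa s)) (g (fb s))
          = lc (ext (gt (f (fa s)))) (ext (gt (f (fb s)))) := by
        intro s
        simp only [pat, hx, Equiv.symm_apply_apply]
      simp only [e1] at hss
      exact hss

/-- completely balanced colourings without rainbow `G` on arbitrarily large complete graphs
refute the property -/
theorem not_forced {V : Type} (G : SimpleGraph V)
    (hc : ∀ t : ℕ, ∃ c : EdgeColouring ((4 * (G.edgeSet.ncard + 1) + 1) ^ t) (G.edgeSet.ncard + 1),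
      c.CompletelyBalanced ∧ ¬ c.HasRainbow G) : ¬ Forced G := by
  rintro ⟨ε, hε, n₀, hn⟩
  obtain ⟨t, ht⟩ : ∃ t : ℕ, n₀ ≤ t ∧ 1 / ε ≤ t := by
    obtain ⟨t, ht⟩ := exists_nat_ge (1 / ε)
    exact ⟨max n₀ t, le_max_left _ _, ht.trans (by exact_mod_cast le_max_right _ _)⟩
  obtain ⟨c, hc, hr⟩ := hc t
  have hlt : t < (4 * (G.edgeSet.ncard + 1) + 1) ^ t := Nat.lt_pow_self (by omega)
  apply hr
  apply hn _ (ht.1.trans hlt.le) c
  intro x i
  have h1 := hc x i
  have h2 : (c.deg x i : ℝ) * ((G.edgeSet.ncard + 1 : ℕ) : ℝ) + 1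
      = (((4 * (G.edgeSet.ncard + 1) + 1) ^ t : ℕ) : ℝ) := by
    exact_mod_cast h1
  have hk : (0 : ℝ) < ((G.edgeSet.ncard + 1 : ℕ) : ℝ) := by positivity
  rw [div_le_iff₀ hk]
  have h3 : (t : ℝ) ≤ (((4 * (G.edgeSet.ncard + 1) + 1) ^ t : ℕ) : ℝ) := by
    exact_mod_cast hlt.le
  have h4 : 1 ≤ ε * (((4 * (G.edgeSet.ncard + 1) + 1) ^ t : ℕ) : ℝ) := by
    have h5 := ht.2.trans h3
    rw [div_le_iff₀ hε] at h5
    linarith
  linarith

/-- a rainbow copy of `G` contains a rainbow copy of each of its induced subgraphs -/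
theorem hasRainbow_induce {V : Type} {n k : ℕ} (c : EdgeColouring n k) (G : SimpleGraph V)
    (S : Set V) (h : c.HasRainbow G) : c.HasRainbow (G.induce S) := by
  obtain ⟨f, hf⟩ := h
  refine ⟨(Function.Embedding.subtype _).trans f, ?_⟩
  intro a b a' b' h1 h2 h3
  have h4 := hf a b a' b' h1 h2 h3
  rw [Sym2.eq_iff] at h4 ⊢
  rcases h4 with h4 | h4
  · left; exact ⟨Subtype.ext h4.1, Subtype.ext h4.2⟩
  · right; exact ⟨Subtype.ext h4.1, Subtype.ext h4.2⟩
theorem ratio_bound {k : ℕ} (hk : 1 ≤ k) (n : ℕ) :
    ((k.descFactorial n : ℕ) : ℝ) * 2 ^ n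
      ≤ (((k * 2).descFactorial n : ℕ) : ℝ) * Real.exp (-((n : ℝ) * (n - 1) / (4 * k))) := by
  have hk0 : (0 : ℝ) < k := by exact_mod_cast hk
  induction n with
  | zero => simp
  | succ n ih =>
    rw [Nat.descFactorial_succ, Nat.descFactorial_succ]
    by_cases hn : k ≤ n
    · rw [Nat.sub_eq_zero_of_le hn]
      simp only [zero_mul, Nat.cast_zero]
      positivity
    · push Not at hn
      have e1 : ((k - n : ℕ) : ℝ) = (k : ℝ) - n := by
        rw [Nat.cast_sub hn.le]
      have e2 : ((k * 2 - n : ℕ) : ℝ) = (k : ℝ) * 2 - n := by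
        rw [Nat.cast_sub (by omega)]; push_cast; ring
      have e3 : Real.exp (-(((n + 1 : ℕ) : ℝ) * (((n + 1 : ℕ) : ℝ) - 1) / (4 * k)))
          = Real.exp (-((n : ℝ) * (n - 1) / (4 * k))) * Real.exp (-((n : ℝ) / (2 * k))) := by
        rw [← Real.exp_add]
        congr 1
        push_cast
        field_simp
        ring
      rw [e3]
      push_cast
      rw [e1, e2]
      have hnk : (n : ℝ) < k := by exact_mod_cast hn
      have hn0 : (0 : ℝ) ≤ n := Nat.cast_nonneg n
      have h1 : 2 * ((k : ℝ) - n) ≤ ((k : ℝ) * 2 - n) * Real.exp (-((n : ℝ) / (2 * k))) := by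
        have h2 := Real.add_one_le_exp (-((n : ℝ) / (2 * k)))
        have h3 : ((k : ℝ) * 2 - n) * (-((n : ℝ) / (2 * k)) + 1) ≤
            ((k : ℝ) * 2 - n) * Real.exp (-((n : ℝ) / (2 * k))) :=
          mul_le_mul_of_nonneg_left h2 (by linarith)
        have h4 : ((k : ℝ) * 2 - n) * (-((n : ℝ) / (2 * k)) + 1)
            = 2 * ((k : ℝ) - n) + (n : ℝ) ^ 2 / (2 * k) := by
          field_simp
          ring
        have h5 : 0 ≤ (n : ℝ) ^ 2 / (2 * k) := by positivity
        linarith
      calc ((k : ℝ) - n) * (k.descFactorial n : ℝ) * 2 ^ (n + 1)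
          = (2 * ((k : ℝ) - n)) * ((k.descFactorial n : ℝ) * 2 ^ n) := by rw [pow_succ]; ring
        _ ≤ (((k : ℝ) * 2 - n) * Real.exp (-((n : ℝ) / (2 * k)))) *
            (((k * 2).descFactorial n : ℝ) * Real.exp (-((n : ℝ) * (n - 1) / (4 * k)))) := by
            apply mul_le_mul h1 ih (by positivity)
            apply mul_nonneg (by linarith) (Real.exp_pos _).le
        _ = _ := by ring

theorem numeric3 {e e' w : ℕ} (he : 2 ≤ e) (hw : 1 ≤ w) (hle : e' ≤ e)
    (h : 14 * (e : ℝ) * w * Real.log e ≤ (e' : ℝ) ^ 2) :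
    (w : ℝ) * Real.log ((w : ℝ) * w * (4 * ((e + 1 : ℕ) : ℝ) + 1))
      < (e' : ℝ) * (e' - 1) / (4 * ((e + 1 : ℕ) : ℝ)) := by
  set L := Real.log e with hL
  have hl2 := Real.log_two_gt_d9
  have he0 : (2 : ℝ) ≤ e := by exact_mod_cast he
  have hw0 : (1 : ℝ) ≤ w := by exact_mod_cast hw
  have hle' : (e' : ℝ) ≤ e := by exact_mod_cast hle
  have hL2 : Real.log 2 ≤ L := Real.log_le_log (by norm_num) he0
  have hLpos : 0 < L := by linarith
  have he'0 : (0 : ℝ) ≤ e' := Nat.cast_nonneg _
  have he'pos : (0 : ℝ) < e' := by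
    rcases he'0.lt_or_eq with h1 | h1
    · exact h1
    · rw [← h1] at h
      have : 0 < 14 * (e : ℝ) * w * L := by positivity
      norm_num at h
      linarith
  have h14 : 14 * (w : ℝ) * L ≤ e' := by
    have h1 : 14 * (e' : ℝ) * w * L ≤ (e' : ℝ) ^ 2 := by
      refine le_trans ?_ h
      have : 0 ≤ (w : ℝ) * L := by positivity
      nlinarith
    have h2 : (e' : ℝ) * (14 * (w : ℝ) * L) ≤ e' * e' := by nlinarith
    exact le_of_mul_le_mul_left h2 he'pos
  have h14e : 14 * (w : ℝ) * L ≤ e := h14.trans hle'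
  have h14L : 14 * L ≤ e := by
    refine le_trans ?_ h14e
    have : 0 ≤ ((w : ℝ) - 1) * L := mul_nonneg (by linarith) hLpos.le
    nlinarith
  -- bootstrapping the size of `e`
  have b1 : (8 : ℝ) ≤ e := by linarith
  have c1 : 3 * Real.log 2 ≤ L := by
    have : Real.log ((2 : ℝ) ^ 3) ≤ L := Real.log_le_log (by norm_num) (by norm_num; exact_mod_cast b1)
    rwa [Real.log_pow] at this
  have b2 : (16 : ℝ) ≤ e := by linarith
  have c2 : 4 * Real.log 2 ≤ L := by
    have : Real.log ((2 : ℝ) ^ 4) ≤ L := Real.log_le_log (by norm_num) (by norm_num; exact_mod_cast b2)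
    rwa [Real.log_pow] at this
  have b3 : (32 : ℝ) ≤ e := by linarith
  have c3 : 5 * Real.log 2 ≤ L := by
    have : Real.log ((2 : ℝ) ^ 5) ≤ L := Real.log_le_log (by norm_num) (by norm_num; exact_mod_cast b3)
    rwa [Real.log_pow] at this
  have hL3 : (3.46 : ℝ) ≤ L := by linarith
  have b4 : (48 : ℝ) ≤ e := by linarith
  have hwL : 48 * (w : ℝ) ≤ 14 * (w : ℝ) * L := by nlinarith
  have hwe : 48 * (w : ℝ) ≤ e := hwL.trans h14e
  have he'48 : (48 : ℝ) ≤ e' := by nlinarith
  -- the logarithm
  have hlog : Real.log ((w : ℝ) * w * (4 * ((e + 1 : ℕ) : ℝ) + 1)) ≤ 3 * L := by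
    have h1 : (w : ℝ) * w * (4 * ((e + 1 : ℕ) : ℝ) + 1) ≤ (e : ℝ) ^ 3 := by
      push_cast
      have h2 : (w : ℝ) * w ≤ (e / 48) * (e / 48) := by
        apply mul_self_le_mul_self (by linarith)
        linarith
      have h3 : 4 * ((e : ℝ) + 1) + 1 ≤ 5 * e := by linarith
      calc (w : ℝ) * w * (4 * ((e : ℝ) + 1) + 1) ≤ ((e / 48) * (e / 48)) * (5 * e) :=
            mul_le_mul h2 h3 (by positivity) (by positivity)
        _ = (e : ℝ) ^ 3 * (5 / 2304) := by ring
        _ ≤ (e : ℝ) ^ 3 * 1 := by
            apply mul_le_mul_of_nonneg_left (by norm_num) (by positivity)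
        _ = _ := by ring
    have h4 : Real.log ((w : ℝ) * w * (4 * ((e + 1 : ℕ) : ℝ) + 1)) ≤ Real.log ((e : ℝ) ^ 3) :=
      Real.log_le_log (by positivity) h1
    rw [Real.log_pow] at h4
    exact_mod_cast h4
  have hmain : (w : ℝ) * (3 * L) < (e' : ℝ) * (e' - 1) / (4 * ((e + 1 : ℕ) : ℝ)) := by
    rw [lt_div_iff₀ (by positivity)]
    push_cast
    set X := (w : ℝ) * L with hX
    have hXpos : 0 < X := by positivity
    have h5 : 14 * (e : ℝ) * X ≤ (e' : ℝ) ^ 2 := by rw [hX]; linarith
    -- e' (e' - 1) ≥ (47/48) e'^2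
    have h6 : (e' : ℝ) * (e' - 1) ≥ (47 / 48) * (e' : ℝ) ^ 2 := by nlinarith
    have h7 : (w : ℝ) * (3 * L) * (4 * ((e : ℝ) + 1)) = 12 * X * (e + 1) := by rw [hX]; ring
    rw [h7]
    have h8 : 12 * X * ((e : ℝ) + 1) ≤ 12 * X * (e * (49 / 48)) := by
      apply mul_le_mul_of_nonneg_left _ (by positivity)
      linarith
    have h9 : 0 < (e : ℝ) * X := by positivity
    nlinarith
  calc (w : ℝ) * Real.log ((w : ℝ) * w * (4 * ((e + 1 : ℕ) : ℝ) + 1)) ≤ w * (3 * L) :=
        mul_le_mul_of_nonneg_left hlog (by linarith)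
    _ < _ := hmain

theorem ncard_induce_le {V : Type} [Fintype V] (G : SimpleGraph V) (S : Set V) :
    (G.induce S).edgeSet.ncard ≤ G.edgeSet.ncard := by
  classical
  apply Set.ncard_le_ncard_of_injOn (Sym2.map Subtype.val)
  · intro s hs
    induction s using Sym2.ind with
    | _ a b =>
      rw [SimpleGraph.mem_edgeSet] at hs
      rw [Sym2.map_mk, SimpleGraph.mem_edgeSet]
      exact hs
  · intro s _ s' _ h
    exact Sym2.map.injective Subtype.val_injective h

/-- If some nonempty set `S` of vertices of `G` spans `e(S)` edges with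
`14 e |S| ln e ≤ e(S) ^ 2`, where `e` is the number of edges of `G`, then `G` fails the Erdos-Tuza
property, even for colourings in which all colour classes are regular of the same degree. -/
theorem not_forced_of_dense {V : Type} [Fintype V] (G : SimpleGraph V) (he : 2 ≤ G.edgeSet.ncard)
    (S : Finset V) (hS : S.Nonempty)
    (h : 14 * (G.edgeSet.ncard : ℝ) * S.card * Real.log G.edgeSet.ncard
      ≤ ((G.induce (S : Set V)).edgeSet.ncard : ℝ) ^ 2) :
    (∀ t : ℕ, ∃ c : EdgeColouring ((4 * (G.edgeSet.ncard + 1) + 1) ^ t) (G.edgeSet.ncard + 1),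
      c.CompletelyBalanced ∧ ¬ c.HasRainbow G) ∧ ¬ Forced G := by
  classical
  have hle := ncard_induce_le G (S : Set V)
  set e := G.edgeSet.ncard with hedef
  set e' := (G.induce (S : Set V)).edgeSet.ncard with he'
  have hw : 1 ≤ S.card := hS.card_pos
  have h1 := numeric3 he hw hle h
  have hcard : Fintype.card (↥(S : Set V)) = S.card := by simp
  have hnum : (Fintype.card (↥(S : Set V)) * Fintype.card (↥(S : Set V)) * (4 * (e + 1) + 1))
      ^ Fintype.card (↥(S : Set V)) * ((e + 1).descFactorial e' * 2 ^ e')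
        < ((e + 1) * 2).descFactorial e' := by
    rw [hcard]
    have h2 := ratio_bound (show 1 ≤ e + 1 by omega) e'
    have hdpos : 0 < ((e + 1) * 2).descFactorial e' := Nat.descFactorial_pos.mpr (by omega)
    have hdpos' : (0 : ℝ) < (((e + 1) * 2).descFactorial e' : ℕ) := by exact_mod_cast hdpos
    have hw0 : (0 : ℝ) < (S.card : ℝ) := by exact_mod_cast hw
    set B : ℝ := (S.card : ℝ) * S.card * (4 * ((e + 1 : ℕ) : ℝ) + 1) with hB
    have hBpos : 0 < B := by positivity
    have h3 : B ^ S.card < Real.exp ((e' : ℝ) * (e' - 1) / (4 * ((e + 1 : ℕ) : ℝ))) := by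
      have : B ^ S.card = Real.exp ((S.card : ℝ) * Real.log B) := by
        rw [mul_comm, ← Real.rpow_def_of_pos hBpos, Real.rpow_natCast]
      rw [this]
      exact Real.exp_lt_exp.mpr h1
    have h4 : B ^ S.card * ((((e + 1).descFactorial e' : ℕ) : ℝ) * 2 ^ e')
        < (((e + 1) * 2).descFactorial e' : ℕ) := by
      calc B ^ S.card * ((((e + 1).descFactorial e' : ℕ) : ℝ) * 2 ^ e')
          ≤ B ^ S.card * ((((e + 1) * 2).descFactorial e' : ℕ) *
              Real.exp (-((e' : ℝ) * (e' - 1) / (4 * ((e + 1 : ℕ) : ℝ))))) :=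
            mul_le_mul_of_nonneg_left h2 (by positivity)
        _ < Real.exp ((e' : ℝ) * (e' - 1) / (4 * ((e + 1 : ℕ) : ℝ))) *
            ((((e + 1) * 2).descFactorial e' : ℕ) *
              Real.exp (-((e' : ℝ) * (e' - 1) / (4 * ((e + 1 : ℕ) : ℝ))))) :=
            mul_lt_mul_of_pos_right h3 (by positivity)
        _ = _ := by
            rw [mul_left_comm, ← Real.exp_add, add_neg_cancel, Real.exp_zero, mul_one]
    have h5 : (((S.card * S.card * (4 * (e + 1) + 1)) ^ S.card *
        ((e + 1).descFactorial e' * 2 ^ e') : ℕ) : ℝ)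
        < ((((e + 1) * 2).descFactorial e' : ℕ) : ℝ) := by
      push_cast
      push_cast [hB] at h4
      exact h4
    exact_mod_cast h5
  have hm : ∀ t : ℕ, ∃ c : EdgeColouring ((4 * (e + 1) + 1) ^ t) (e + 1),
      c.CompletelyBalanced ∧ ¬ c.HasRainbow G := by
    intro t
    obtain ⟨c, hc1, hc2⟩ := main (G.induce (S : Set V)) (show 1 ≤ e + 1 by omega) hnum t
    exact ⟨c, hc1, fun hr => hc2 (hasRainbow_induce c G (S : Set V) hr)⟩
  exact ⟨hm, not_forced G hm⟩
/-! the positive part -/
section positive

variable {V : Type} [Fintype V] {n k : ℕ}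

open Classical in
theorem resample (u : V) (P Q : (V → Fin n) → Prop) (D : ℕ)
    (hP : ∀ x y, P x → P (Function.update x u y))
    (hQ : ∀ x, P x → (univ.filter (fun y => Q (Function.update x u y))).card ≤ D) :
    (univ.filter (fun x => P x ∧ Q x)).card * n ≤ (univ.filter P).card * D := by
  have h1 : (univ.filter (fun x => P x ∧ Q x)).card * n
      = ((univ.filter (fun x : V → Fin n => P x ∧ Q x)) ×ˢ (univ : Finset (Fin n))).card := by
    rw [Finset.card_product]; simp
  have h2 : ((univ.filter (fun x : V → Fin n => P x ∧ Q x)) ×ˢ (univ : Finset (Fin n))).card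
      ≤ ((univ.filter P).sigma
        (fun x => univ.filter (fun y => Q (Function.update x u y)))).card := by
    apply Finset.card_le_card_of_injOn
      (fun p => ⟨Function.update p.1 u p.2, p.1 u⟩)
    · rintro ⟨x, z⟩ hx
      simp only [coe_product, coe_filter, mem_univ, true_and, coe_univ, Set.mem_prod,
        Set.mem_ofPred_eq, Set.mem_univ, and_true] at hx
      simp only [coe_sigma, coe_filter, mem_univ, true_and, Set.mem_sigma_iff,
        Set.mem_ofPred_eq, Function.update_idem, Function.update_eq_self]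
      exact ⟨hP x z hx.1, hx.2⟩
    · rintro ⟨x, z⟩ _ ⟨x', z'⟩ _ h
      simp only [Sigma.mk.injEq, heq_eq_eq] at h
      have hz : z = z' := by
        have := congrFun h.1 u
        simpa using this
      have hx : x = x' := by
        funext w
        by_cases hw : w = u
        · rw [hw]; exact h.2
        · have := congrFun h.1 w
          simpa [hw] using this
      rw [hx, hz]
  rw [h1]
  refine h2.trans ?_
  rw [Finset.card_sigma]
  calc ∑ x ∈ univ.filter P, (univ.filter (fun y => Q (Function.update x u y))).card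
      ≤ ∑ _x ∈ univ.filter P, D := by
        apply Finset.sum_le_sum
        intro x hx
        exact hQ x (by simpa using hx)
    _ = _ := by rw [Finset.sum_const, smul_eq_mul]

/-- colour of an unordered pair -/
def EdgeColouring.colS (c : EdgeColouring n k) : Sym2 (Fin n) → Fin k :=
  Sym2.lift ⟨c.col, c.symm⟩

theorem EdgeColouring.colS_mk (c : EdgeColouring n k) (a b : Fin n) :
    c.colS s(a, b) = c.col a b := rfl

open Classical in
noncomputable def edgesIn (G : SimpleGraph V) (A : Finset V) : Finset (Sym2 V) :=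
  G.edgeFinset.filter (fun s => ∀ v ∈ s, v ∈ A)

theorem mem_edgesIn {G : SimpleGraph V} {A : Finset V} {s : Sym2 V} :
    s ∈ edgesIn G A ↔ s ∈ G.edgeSet ∧ ∀ v ∈ s, v ∈ A := by
  simp [edgesIn]

theorem mem_edgesIn_mk {G : SimpleGraph V} {A : Finset V} {a b : V} :
    s(a, b) ∈ edgesIn G A ↔ G.Adj a b ∧ a ∈ A ∧ b ∈ A := by
  simp [mem_edgesIn]

def Good (c : EdgeColouring n k) (G : SimpleGraph V) (A : Finset V) (x : V → Fin n) : Prop :=
  (∀ a ∈ A, ∀ b ∈ A, x a = x b → a = b) ∧
  ∀ s ∈ edgesIn G A, ∀ s' ∈ edgesIn G A, c.colS (s.map x) = c.colS (s'.map x) → s = s'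

theorem map_update {x : V → Fin n} {u : V} {y : Fin n} {s : Sym2 V} [DecidableEq V]
    (h : u ∉ s) : s.map (Function.update x u y) = s.map x := by
  apply Sym2.map_congr
  intro v hv
  rw [Function.update_of_ne]
  rintro rfl
  exact h hv

open Classical in
theorem good_update {c : EdgeColouring n k} {G : SimpleGraph V} {A : Finset V} {x : V → Fin n}
    {u : V} (hu : u ∉ A) (y : Fin n) (h : Good c G A x) : Good c G A (Function.update x u y) := by
  have hne : ∀ a ∈ A, a ≠ u := fun a ha e => hu (e ▸ ha)
  refine ⟨?_, ?_⟩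
  · intro a ha b hb hab
    rw [Function.update_of_ne (hne a ha), Function.update_of_ne (hne b hb)] at hab
    exact h.1 a ha b hb hab
  · intro s hs s' hs' hss
    rw [map_update (fun hh => hu ((mem_edgesIn.mp hs).2 u hh)),
      map_update (fun hh => hu ((mem_edgesIn.mp hs').2 u hh))] at hss
    exact h.2 s hs s' hs' hss

theorem good_mono {c : EdgeColouring n k} {G : SimpleGraph V} {A B : Finset V} {x : V → Fin n}
    (hAB : A ⊆ B) (h : Good c G B x) : Good c G A x := by
  refine ⟨fun a ha b hb => h.1 a (hAB ha) b (hAB hb), ?_⟩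
  intro s hs s' hs'
  exact h.2 s (mem_edgesIn.mpr ⟨(mem_edgesIn.mp hs).1, fun v hv => hAB ((mem_edgesIn.mp hs).2 v hv)⟩)
    s' (mem_edgesIn.mpr ⟨(mem_edgesIn.mp hs').1, fun v hv => hAB ((mem_edgesIn.mp hs').2 v hv)⟩)

open Classical in
theorem edgesIn_insert {G : SimpleGraph V} {A : Finset V} {u : V} {s : Sym2 V}
    (h : s ∈ edgesIn G (insert u A)) (hu : u ∉ A) :
    s ∈ edgesIn G A ∨ ∃ a ∈ A.filter (G.Adj u), s = s(u, a) := by
  induction s using Sym2.ind with
  | _ a b =>
    rw [mem_edgesIn_mk] at h
    obtain ⟨h1, h2, h3⟩ := h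
    rw [mem_insert] at h2 h3
    rcases h2 with rfl | h2
    · rcases h3 with rfl | h3
      · exact absurd h1 (G.loopless.irrefl _)
      · right
        exact ⟨b, by simp [h3, h1], rfl⟩
    · rcases h3 with rfl | h3
      · right
        exact ⟨a, by simp [h2, h1.symm], Sym2.eq_swap⟩
      · left
        exact mem_edgesIn_mk.mpr ⟨h1, h2, h3⟩

open Classical in
theorem card_edges_insert {G : SimpleGraph V} {A S : Finset V} {u : V}
    (hu : u ∉ A) (hA : insert u A ⊆ S) :
    (edgesIn G A).card + (A.filter (G.Adj u)).card ≤ (edgesIn G S).card := by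
  have h1 : ((A.filter (G.Adj u)).image (fun a => s(u, a))).card = (A.filter (G.Adj u)).card := by
    apply Finset.card_image_of_injective
    intro a b hab
    simp only [Sym2.eq_iff] at hab
    rcases hab with h | h
    · exact h.2
    · rw [h.2, h.1]
  rw [← h1, ← Finset.card_union_of_disjoint]
  · apply Finset.card_le_card
    intro s hs
    rw [mem_union, mem_image] at hs
    rcases hs with hs | ⟨a, ha, rfl⟩
    · rw [mem_edgesIn] at hs ⊢
      exact ⟨hs.1, fun v hv => hA (mem_insert_of_mem (hs.2 v hv))⟩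
    · rw [mem_filter] at ha
      rw [mem_edgesIn_mk]
      exact ⟨ha.2, hA (mem_insert_self _ _), hA (mem_insert_of_mem ha.1)⟩
  · rw [Finset.disjoint_left]
    intro s hs hs'
    rw [mem_image] at hs'
    obtain ⟨a, _, rfl⟩ := hs'
    rw [mem_edgesIn_mk] at hs
    exact hu hs.2.1

open Classical in
/-- the number of good maps at least halves when one vertex is added -/
theorem step (c : EdgeColouring n k) (G : SimpleGraph V) (S : Finset V) (D Δ : ℕ)
    (hD : ∀ (p : Fin n) (i : Fin k), (univ.filter (fun y => c.col p y = i)).card ≤ D)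
    (hΔ : ∀ u ∈ S, (S.filter (G.Adj u)).card ≤ Δ)
    (hR : 2 * (Δ * ((edgesIn G S).card - 1) * D + Fintype.card V) ≤ n) (A : Finset V) :
    ∀ u, u ∉ A → insert u A ⊆ S →
      (univ.filter (Good c G A)).card ≤ 2 * (univ.filter (Good c G (insert u A))).card := by
  induction A using Finset.strongInduction with
  | H A ih =>
    intro u hu hAS
    have hVpos : 0 < Fintype.card V := Fintype.card_pos_iff.mpr ⟨u⟩
    have hn0 : 0 < n := by omega
    set M := (univ.filter (Good c G A)).card with hM
    set M' := (univ.filter (Good c G (insert u A))).card with hM'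
    set Nb := A.filter (G.Adj u) with hNb
    set I1 : Finset (Sym2 V) := Nb.offDiag.image (fun p => s(p.1, p.2)) with hI1
    set B0 : V → Finset (V → Fin n) := fun a => univ.filter (fun x => Good c G A x ∧ x u = x a)
      with hB0
    set B1 : Sym2 V → Finset (V → Fin n) := fun p => univ.filter (fun x => Good c G A x ∧
      ∀ a b, p = s(a, b) → c.col (x u) (x a) = c.col (x u) (x b)) with hB1
    set B2 : V × Sym2 V → Finset (V → Fin n) := fun q => univ.filter (fun x => Good c G A x ∧
      c.col (x u) (x q.1) = c.colS (q.2.map x)) with hB2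
    have hneu : ∀ a ∈ A, a ≠ u := fun a ha e => hu (e ▸ ha)
    -- covering
    have hcover : univ.filter (Good c G A) ⊆ univ.filter (Good c G (insert u A)) ∪
        (A.biUnion B0 ∪ (I1.biUnion B1 ∪ (Nb ×ˢ edgesIn G A).biUnion B2)) := by
      intro x hx
      have hgx : Good c G A x := by simpa using hx
      by_contra hnot
      rw [mem_union, mem_union, mem_union, mem_biUnion, mem_biUnion, mem_biUnion] at hnot
      push Not at hnot
      obtain ⟨hn1, hn2, hn3, hn4⟩ := hnot
      apply hn1
      rw [mem_filter]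
      refine ⟨mem_univ _, ?_, ?_⟩
      · intro a ha b hb hab
        rw [mem_insert] at ha hb
        rcases ha with rfl | ha <;> rcases hb with rfl | hb
        · rfl
        · exact absurd (mem_filter.mpr ⟨mem_univ _, hgx, hab⟩) (hn2 b hb)
        · exact absurd (mem_filter.mpr ⟨mem_univ _, hgx, hab.symm⟩) (hn2 a ha)
        · exact hgx.1 a ha b hb hab
      · intro s hs s' hs' hss
        rcases edgesIn_insert hs hu with h1 | ⟨a, ha, rfl⟩ <;>
          rcases edgesIn_insert hs' hu with h2 | ⟨b, hb, rfl⟩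
        · exact hgx.2 s h1 s' h2 hss
        · exact absurd (mem_filter.mpr ⟨mem_univ _, hgx, hss.symm⟩)
            (hn4 (b, s) (mem_product.mpr ⟨hb, h1⟩))
        · exact absurd (mem_filter.mpr ⟨mem_univ _, hgx, hss⟩)
            (hn4 (a, s') (mem_product.mpr ⟨ha, h2⟩))
        · by_cases hab : a = b
          · rw [hab]
          · refine absurd (mem_filter.mpr ⟨mem_univ _, hgx, ?_⟩) (hn3 (s(a, b))
              (mem_image.mpr ⟨(a, b), mem_offDiag.mpr ⟨ha, hb, hab⟩, rfl⟩))
            intro a' b' hh
            have h3 : c.col (x u) (x a) = c.col (x u) (x b) := hss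
            rw [Sym2.eq_iff] at hh
            rcases hh with ⟨rfl, rfl⟩ | ⟨rfl, rfl⟩
            · exact h3
            · exact h3.symm
    -- the bad events
    have b0 : ∀ a ∈ A, (B0 a).card * n ≤ M * 1 := by
      intro a ha
      have h := resample u (Good c G A) (fun x => x u = x a) 1 (fun x y h => good_update hu y h) (by
        intro x _
        rw [Finset.card_le_one]
        intro y hy z hz
        simp only [mem_filter, mem_univ, true_and, Function.update_self,
          Function.update_of_ne (hneu a ha)] at hy hz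
        rw [hy, hz])
      convert h
    have b2 : ∀ q ∈ Nb ×ˢ edgesIn G A, (B2 q).card * n ≤ M * D := by
      rintro ⟨a, s⟩ hq
      rw [mem_product] at hq
      have ha : a ∈ A := (mem_filter.mp hq.1).1
      have h := resample u (Good c G A) (fun x => c.col (x u) (x a) = c.colS (s.map x)) D
        (fun x y h => good_update hu y h) (by
          intro x _
          refine le_trans (Finset.card_le_card ?_) (hD (x a) (c.colS (s.map x)))
          intro y hy
          simp only [mem_filter, mem_univ, true_and, Function.update_self,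
            Function.update_of_ne (hneu a ha)] at hy ⊢
          rw [map_update (fun hh => hu ((mem_edgesIn.mp hq.2).2 u hh))] at hy
          rw [c.symm, hy])
      convert h
    have b1 : ∀ p ∈ I1, (B1 p).card * n ≤ 2 * M * D := by
      intro p hp
      rw [hI1, mem_image] at hp
      obtain ⟨⟨a, b⟩, hab, rfl⟩ := hp
      rw [mem_offDiag] at hab
      have ha : a ∈ A := (mem_filter.mp hab.1).1
      have hea : insert a (A.erase a) = A := Finset.insert_erase ha
      have hm : (univ.filter (Good c G (A.erase a))).card ≤ 2 * M := by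
        have := ih (A.erase a) (Finset.erase_ssubset ha) a (Finset.notMem_erase a A)
          (by rw [hea]; exact (Finset.subset_insert u A).trans hAS)
        rwa [hea] at this
      have h1 := resample a (Good c G (A.erase a))
        (fun x => c.col (x u) (x a) = c.col (x u) (x b)) D
        (fun x y h => good_update (Finset.notMem_erase a A) y h) (by
          intro x _
          refine le_trans (Finset.card_le_card ?_) (hD (x u) (c.col (x u) (x b)))
          intro y hy
          simp only [mem_filter, mem_univ, true_and, Function.update_self,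
            Function.update_of_ne (hneu a ha).symm, Function.update_of_ne (Ne.symm hab.2.2)] at hy ⊢
          exact hy)
      have h2 : (B1 s(a, b)).card ≤ (univ.filter (fun x => Good c G (A.erase a) x ∧
          c.col (x u) (x a) = c.col (x u) (x b))).card := by
        apply Finset.card_le_card
        intro x hx
        rw [hB1] at hx
        simp only [mem_filter, mem_univ, true_and] at hx ⊢
        exact ⟨good_mono (Finset.erase_subset a A) hx.1, hx.2 a b rfl⟩
      calc (B1 s(a, b)).card * n ≤ _ * n := Nat.mul_le_mul_right _ h2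
        _ ≤ (univ.filter (Good c G (A.erase a))).card * D := by convert h1
        _ ≤ 2 * M * D := Nat.mul_le_mul_right _ hm
    -- counting
    have hI1card : I1.card = Nb.card.choose 2 := Sym2.card_image_offDiag Nb
    have hch : 2 * Nb.card.choose 2 = Nb.card * (Nb.card - 1) := by
      rw [Nat.choose_two_right]
      have : 2 ∣ Nb.card * (Nb.card - 1) := (Nat.even_mul_pred_self _).two_dvd
      omega
    have hNbΔ : Nb.card ≤ Δ := by
      refine le_trans (Finset.card_le_card ?_) (hΔ u (hAS (mem_insert_self _ _)))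
      exact Finset.filter_subset_filter _ ((Finset.subset_insert u A).trans hAS)
    have hedges : (edgesIn G A).card + Nb.card ≤ (edgesIn G S).card := by
      have := card_edges_insert (G := G) hu hAS
      convert this
    have hRb : Nb.card * (Nb.card - 1) + Nb.card * (edgesIn G A).card
        ≤ Δ * ((edgesIn G S).card - 1) := by
      rw [← mul_add]
      rcases Nat.eq_zero_or_pos Nb.card with h0 | h0
      · rw [h0]; simp
      · apply Nat.mul_le_mul hNbΔ
        omega
    have hAc : A.card ≤ Fintype.card V := Finset.card_le_univ A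
    have c0 : (A.biUnion B0).card * n ≤ A.card * M := by
      calc (A.biUnion B0).card * n ≤ (∑ a ∈ A, (B0 a).card) * n :=
            Nat.mul_le_mul_right _ Finset.card_biUnion_le
        _ = ∑ a ∈ A, (B0 a).card * n := by rw [Finset.sum_mul]
        _ ≤ ∑ _a ∈ A, M * 1 := Finset.sum_le_sum b0
        _ = _ := by rw [Finset.sum_const, smul_eq_mul, mul_one]
    have c1 : (I1.biUnion B1).card * n ≤ Nb.card * (Nb.card - 1) * (M * D) := by
      calc (I1.biUnion B1).card * n ≤ (∑ a ∈ I1, (B1 a).card) * n :=
            Nat.mul_le_mul_right _ Finset.card_biUnion_le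
        _ = ∑ a ∈ I1, (B1 a).card * n := by rw [Finset.sum_mul]
        _ ≤ ∑ _a ∈ I1, 2 * M * D := Finset.sum_le_sum b1
        _ = 2 * Nb.card.choose 2 * (M * D) := by
            rw [Finset.sum_const, smul_eq_mul, hI1card]; ring
        _ = _ := by rw [hch]
    have c2 : ((Nb ×ˢ edgesIn G A).biUnion B2).card * n
        ≤ Nb.card * (edgesIn G A).card * (M * D) := by
      calc ((Nb ×ˢ edgesIn G A).biUnion B2).card * n
          ≤ (∑ a ∈ Nb ×ˢ edgesIn G A, (B2 a).card) * n :=
            Nat.mul_le_mul_right _ Finset.card_biUnion_le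
        _ = ∑ a ∈ Nb ×ˢ edgesIn G A, (B2 a).card * n := by rw [Finset.sum_mul]
        _ ≤ ∑ _a ∈ Nb ×ˢ edgesIn G A, M * D := Finset.sum_le_sum b2
        _ = _ := by rw [Finset.sum_const, smul_eq_mul, Finset.card_product]
    have htot : M ≤ M' + ((A.biUnion B0).card + ((I1.biUnion B1).card +
        ((Nb ×ˢ edgesIn G A).biUnion B2).card)) := by
      refine (Finset.card_le_card hcover).trans ?_
      refine (Finset.card_union_le _ _).trans (Nat.add_le_add_left ?_ _)
      refine (Finset.card_union_le _ _).trans (Nat.add_le_add_left ?_ _)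
      exact Finset.card_union_le _ _
    have h3 : M * n ≤ M' * n + M * ((Δ * ((edgesIn G S).card - 1) * D + Fintype.card V)) := by
      calc M * n ≤ (M' + ((A.biUnion B0).card + ((I1.biUnion B1).card +
          ((Nb ×ˢ edgesIn G A).biUnion B2).card))) * n := Nat.mul_le_mul_right _ htot
        _ = M' * n + ((A.biUnion B0).card * n + ((I1.biUnion B1).card * n +
          ((Nb ×ˢ edgesIn G A).biUnion B2).card * n)) := by ring
        _ ≤ M' * n + (A.card * M + (Nb.card * (Nb.card - 1) * (M * D) +
          Nb.card * (edgesIn G A).card * (M * D))) := by omega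
        _ = M' * n + (M * A.card + (Nb.card * (Nb.card - 1) + Nb.card * (edgesIn G A).card)
            * (M * D)) := by ring
        _ ≤ M' * n + (M * Fintype.card V + (Δ * ((edgesIn G S).card - 1)) * (M * D)) := by
            have e1 := Nat.mul_le_mul_left M hAc
            have e2 := Nat.mul_le_mul_right (M * D) hRb
            omega
        _ = _ := by ring
    have h4 : M * (2 * (Δ * ((edgesIn G S).card - 1) * D + Fintype.card V)) ≤ M * n :=
      Nat.mul_le_mul_left _ hR
    have h5 : M * n ≤ (2 * M') * n := by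
      have e1 : M * (2 * (Δ * ((edgesIn G S).card - 1) * D + Fintype.card V))
          = 2 * (M * (Δ * ((edgesIn G S).card - 1) * D + Fintype.card V)) := by ring
      have e2 : 2 * M' * n = 2 * (M' * n) := by ring
      omega
    exact Nat.le_of_mul_le_mul_right h5 hn0

open Classical in
theorem exists_good (c : EdgeColouring n k) (G : SimpleGraph V) (S : Finset V) (D Δ : ℕ)
    (hD : ∀ (p : Fin n) (i : Fin k), (univ.filter (fun y => c.col p y = i)).card ≤ D)
    (hΔ : ∀ u ∈ S, (S.filter (G.Adj u)).card ≤ Δ)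
    (hR : 2 * (Δ * ((edgesIn G S).card - 1) * D + Fintype.card V) ≤ n) :
    ∃ x, Good c G S x := by
  have h : ∀ A : Finset V, A ⊆ S → 0 < (univ.filter (Good c G A)).card := by
    intro A
    induction A using Finset.induction_on with
    | empty =>
      intro _
      have hne : Nonempty (V → Fin n) := by
        rcases isEmpty_or_nonempty V with hV | hV
        · exact ⟨fun v => (hV.false v).elim⟩
        · have : 0 < Fintype.card V := Fintype.card_pos
          exact ⟨fun _ => ⟨0, by omega⟩⟩
      obtain ⟨x⟩ := hne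
      apply Finset.card_pos.mpr
      refine ⟨x, mem_filter.mpr ⟨mem_univ _, ?_, ?_⟩⟩
      · intro a ha; simp at ha
      · intro s hs s' _ _
        induction s using Sym2.ind with
        | _ a b =>
          rw [mem_edgesIn_mk] at hs
          simp at hs
    | insert u A hu ih =>
      intro hA
      have h1 := step c G S D Δ hD hΔ hR A u hu hA
      have h2 := ih ((Finset.subset_insert u A).trans hA)
      omega
  obtain ⟨x, hx⟩ := Finset.card_pos.mp (h S (Finset.Subset.refl _))
  exact ⟨x, (mem_filter.mp hx).2⟩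

open Classical in
theorem extend (c : EdgeColouring n k) (G : SimpleGraph V) (S : Finset V)
    (hk : G.edgeFinset.card < k) (hdeg : ∀ x i, Fintype.card V ≤ c.deg x i)
    (hn : Fintype.card V ≤ n)
    (hcore : ∀ T : Finset V, S ⊂ T → ∃ u ∈ T, u ∉ S ∧ (T.filter (G.Adj u)).card ≤ 1)
    (h0 : ∃ x, Good c G S x) (T : Finset V) : S ⊆ T → ∃ x, Good c G T x := by
  induction T using Finset.strongInduction with
  | H T ih =>
    intro hST
    by_cases hEq : S = T
    · rw [← hEq]; exact h0
    · obtain ⟨u, huT, huS, hu1⟩ := hcore T (Finset.ssubset_iff_subset_ne.mpr ⟨hST, hEq⟩)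
      have hS' : S ⊆ T.erase u := fun v hv => Finset.mem_erase.mpr ⟨fun e => huS (e ▸ hv), hST hv⟩
      obtain ⟨x, hx⟩ := ih (T.erase u) (Finset.erase_ssubset huT) hS'
      set T' := T.erase u with hT'
      have hTT' : insert u T' = T := Finset.insert_erase huT
      have huT' : u ∉ T' := Finset.notMem_erase u T
      have hne : ∀ a ∈ T', a ≠ u := fun a ha e => huT' (e ▸ ha)
      have hbad : (T'.image x).card < Fintype.card V := by
        calc (T'.image x).card ≤ T'.card := Finset.card_image_le
          _ < (univ : Finset V).card := Finset.card_lt_card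
              ⟨Finset.subset_univ _, fun h => huT' (h (mem_univ u))⟩
          _ = _ := Finset.card_univ
      have hNb : (T'.filter (G.Adj u)).card ≤ 1 :=
        (Finset.card_le_card (Finset.filter_subset_filter _ (Finset.erase_subset u T))).trans hu1
      rw [← hTT']
      -- choose the new image
      have hy : ∃ y : Fin n, y ∉ T'.image x ∧ ∀ a ∈ T'.filter (G.Adj u),
          ∀ s ∈ edgesIn G T', c.colS (s.map x) ≠ c.col (x a) y := by
        rcases Finset.eq_empty_or_nonempty (T'.filter (G.Adj u)) with hem | ⟨a, ha⟩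
        · have : ∃ y : Fin n, y ∉ T'.image x := by
            by_contra hcon
            push Not at hcon
            have h1 : (univ : Finset (Fin n)) ⊆ T'.image x := fun y _ => hcon y
            have h2 := Finset.card_le_card h1
            rw [Finset.card_univ, Fintype.card_fin] at h2
            omega
          obtain ⟨y, hy⟩ := this
          refine ⟨y, hy, fun a ha => ?_⟩
          rw [hem] at ha
          simp at ha
        · have hj : ∃ j : Fin k, j ∉ (edgesIn G T').image (fun s => c.colS (s.map x)) := by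
            by_contra hcon
            push Not at hcon
            have h1 : (univ : Finset (Fin k)) ⊆ (edgesIn G T').image (fun s => c.colS (s.map x)) :=
              fun y _ => hcon y
            have h2 := Finset.card_le_card h1
            rw [Finset.card_univ, Fintype.card_fin] at h2
            have h3 : ((edgesIn G T').image (fun s => c.colS (s.map x))).card
                ≤ G.edgeFinset.card :=
              Finset.card_image_le.trans (Finset.card_le_card (Finset.filter_subset _ _))
            omega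
          obtain ⟨j, hj⟩ := hj
          have : ∃ y ∈ univ.filter (fun y => y ≠ x a ∧ c.col (x a) y = j), y ∉ T'.image x := by
            by_contra hcon
            push Not at hcon
            have h1 := Finset.card_le_card (show univ.filter
              (fun y => y ≠ x a ∧ c.col (x a) y = j) ⊆ T'.image x from fun y hy => hcon y hy)
            have h2 := hdeg (x a) j
            unfold EdgeColouring.deg at h2
            omega
          obtain ⟨y, hy, hy2⟩ := this
          rw [mem_filter] at hy
          refine ⟨y, hy2, ?_⟩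
          intro b hb s hs
          have hab : b = a := Finset.card_le_one.mp hNb b hb a ha
          rw [hab, hy.2.2]
          intro h
          exact hj (mem_image.mpr ⟨s, hs, h⟩)
      obtain ⟨y, hy1, hy2⟩ := hy
      refine ⟨Function.update x u y, ?_, ?_⟩
      · intro a ha b hb hab
        rw [mem_insert] at ha hb
        rcases ha with rfl | ha <;> rcases hb with rfl | hb
        · rfl
        · rw [Function.update_self, Function.update_of_ne (hne b hb)] at hab
          exact absurd (mem_image.mpr ⟨b, hb, hab.symm⟩) hy1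
        · rw [Function.update_self, Function.update_of_ne (hne a ha)] at hab
          exact absurd (mem_image.mpr ⟨a, ha, hab⟩) hy1
        · rw [Function.update_of_ne (hne a ha), Function.update_of_ne (hne b hb)] at hab
          exact hx.1 a ha b hb hab
      · have hmap : ∀ s ∈ edgesIn G T', s.map (Function.update x u y) = s.map x := fun s hs =>
          map_update (fun hh => huT' ((mem_edgesIn.mp hs).2 u hh))
        have hnew : ∀ a ∈ T'.filter (G.Adj u),
            c.colS ((s(u, a)).map (Function.update x u y)) = c.col (x a) y := by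
          intro a ha
          rw [Sym2.map_mk, Function.update_self,
            Function.update_of_ne (hne a (mem_filter.mp ha).1), EdgeColouring.colS_mk, c.symm]
        intro s hs s' hs' hss
        rcases edgesIn_insert hs huT' with h1 | ⟨a, ha, rfl⟩ <;>
          rcases edgesIn_insert hs' huT' with h2 | ⟨b, hb, rfl⟩
        · rw [hmap s h1, hmap s' h2] at hss
          exact hx.2 s h1 s' h2 hss
        · rw [hmap s h1, hnew b hb] at hss
          exact absurd hss (hy2 b hb s h1)
        · rw [hmap s' h2, hnew a ha] at hss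
          exact absurd hss.symm (hy2 a ha s' h2)
        · rw [Finset.card_le_one.mp hNb a ha b hb]

theorem card_edgesIn (G : SimpleGraph V) (S : Finset V) :
    (edgesIn G S).card = (G.induce (S : Set V)).edgeSet.ncard := by
  classical
  rw [← Set.ncard_coe_finset, ← Set.ncard_image_of_injective (G.induce (S : Set V)).edgeSet
    (Sym2.map.injective Subtype.val_injective)]
  congr 1
  ext s
  rw [mem_coe, mem_edgesIn, Set.mem_image]
  constructor
  · rintro ⟨h1, h2⟩
    induction s using Sym2.ind with
    | _ a b =>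
      refine ⟨s(⟨a, h2 a (Sym2.mem_mk_left _ _)⟩, ⟨b, h2 b (Sym2.mem_mk_right _ _)⟩), ?_, rfl⟩
      rw [SimpleGraph.mem_edgeSet] at h1 ⊢
      exact h1
  · rintro ⟨t, ht, rfl⟩
    induction t using Sym2.ind with
    | _ a b =>
      rw [SimpleGraph.mem_edgeSet] at ht
      refine ⟨ht, ?_⟩
      intro v hv
      rw [Sym2.map_mk, Sym2.mem_iff] at hv
      rcases hv with rfl | rfl
      · exact a.2
      · exact b.2

open Classical in
theorem sum_deg (c : EdgeColouring n k) (p : Fin n) : ∑ i, c.deg p i + 1 = n := by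
  have h1 : (univ.filter (fun y => y ≠ p)).card = ∑ i, c.deg p i := by
    rw [Finset.card_eq_sum_card_fiberwise (f := fun y => c.col p y) (t := univ)
      (fun _ _ => mem_coe.mpr (mem_univ _))]
    apply Finset.sum_congr rfl
    intro i _
    unfold EdgeColouring.deg
    congr 1
    ext y
    simp
  rw [← h1, Finset.filter_ne', Finset.card_erase_of_mem (mem_univ _), Finset.card_univ,
    Fintype.card_fin]
  have := p.2
  omega

/-- the positive half -/
theorem forced_of_core (G : SimpleGraph V) (S : Finset V)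
    (hcore : ∀ T : Finset V, S ⊂ T → ∃ u ∈ T, u ∉ S ∧ {w ∈ (T : Set V) | G.Adj u w}.ncard ≤ 1)
    (Δ : ℕ) (hΔ : ∀ u ∈ S, {w ∈ (S : Set V) | G.Adj u w}.ncard ≤ Δ)
    (h : 2 * (Δ * ((G.induce (S : Set V)).edgeSet.ncard - 1)) ≤ G.edgeSet.ncard) : Forced G := by
  classical
  have hnc : ∀ (T : Finset V) (u : V), {w ∈ (T : Set V) | G.Adj u w}.ncard
      = (T.filter (G.Adj u)).card := by
    intro T u
    rw [← Set.ncard_coe_finset]
    congr 1
    ext w
    simp
  simp only [hnc] at hcore hΔ
  have hedge : G.edgeFinset.card = G.edgeSet.ncard := by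
    rw [← Set.ncard_coe_finset]
    simp
  rw [← card_edgesIn] at h
  set e := G.edgeSet.ncard with he
  set v := Fintype.card V with hv
  set K : ℝ := ((e + 1 : ℕ) : ℝ) with hK
  have hKpos : 0 < K := by rw [hK]; positivity
  have hK1 : 1 ≤ K := by rw [hK]; exact_mod_cast Nat.succ_le_succ (Nat.zero_le e)
  refine ⟨1 / (2 * K ^ 2), by positivity, 4 * (e + 1) * v, ?_⟩
  intro n hn c hbal
  have hnR : 4 * K * v ≤ (n : ℝ) := by
    rw [hK]; exact_mod_cast hn
  have hn0 : (0 : ℝ) ≤ n := Nat.cast_nonneg n
  have hv0 : (0 : ℝ) ≤ v := Nat.cast_nonneg v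
  have hε : 1 / (2 * K ^ 2) ≤ 1 / 2 := by
    apply one_div_le_one_div_of_le (by norm_num)
    nlinarith
  -- the largest colour degree
  set D := ⌊(n : ℝ) / K + 1 / (2 * K ^ 2) * n⌋₊ with hD
  have hDmax : ∀ (p : Fin n) (i : Fin (e + 1)),
      (univ.filter (fun y => c.col p y = i)).card ≤ D := by
    intro p i
    have h1 : (univ.filter (fun y => c.col p y = i)).card ≤ c.deg p i + 1 := by
      have : univ.filter (fun y => c.col p y = i)
          ⊆ insert p (univ.filter (fun y => y ≠ p ∧ c.col p y = i)) := by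
        intro y hy
        by_cases hyp : y = p
        · rw [hyp]; exact mem_insert_self _ _
        · exact mem_insert_of_mem (mem_filter.mpr ⟨mem_univ _, hyp, (mem_filter.mp hy).2⟩)
      exact (Finset.card_le_card this).trans (Finset.card_insert_le _ _)
    have h2 : (c.deg p i : ℝ) + 1 ≤ (n : ℝ) / K + 1 / (2 * K ^ 2) * n := by
      have h3 := sum_deg c p
      rw [← Finset.add_sum_erase _ _ (mem_univ i)] at h3
      have h4 : ∑ j ∈ (univ : Finset (Fin (e + 1))).erase i, ((1 - 1 / (2 * K ^ 2)) * n / K : ℝ)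
          ≤ ∑ j ∈ (univ : Finset (Fin (e + 1))).erase i, (c.deg p j : ℝ) :=
        Finset.sum_le_sum (fun j _ => hbal p j)
      rw [Finset.sum_const, Finset.card_erase_of_mem (mem_univ _), Finset.card_univ,
        Fintype.card_fin, Nat.add_sub_cancel, nsmul_eq_mul] at h4
      have h5 : (c.deg p i : ℝ) + ∑ j ∈ (univ : Finset (Fin (e + 1))).erase i, (c.deg p j : ℝ) + 1
          = n := by exact_mod_cast h3
      have h6 : (e : ℝ) = K - 1 := by rw [hK]; push_cast; ring
      rw [h6] at h4
      have h7 : (K - 1) * ((1 - 1 / (2 * K ^ 2)) * n / K)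
          = n - n / K - (1 / (2 * K ^ 2) * n) + (1 / (2 * K ^ 2) * n) / K := by
        field_simp
        ring
      have h8 : 0 ≤ (1 / (2 * K ^ 2) * n) / K := by positivity
      linarith
    apply h1.trans
    rw [hD]
    apply Nat.le_floor
    push_cast
    exact h2
  have hdeg : ∀ x i, v ≤ c.deg x i := by
    intro x i
    have h1 := hbal x i
    have h2 : (v : ℝ) ≤ (1 - 1 / (2 * K ^ 2)) * n / K := by
      rw [le_div_iff₀ hKpos]
      have h3 : (1 / 2 : ℝ) * n ≤ (1 - 1 / (2 * K ^ 2)) * n :=
        mul_le_mul_of_nonneg_right (by linarith) hn0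
      nlinarith
    exact_mod_cast h2.trans h1
  have hvn : v ≤ n := by
    have : (v : ℝ) ≤ n := by nlinarith
    exact_mod_cast this
  have hR : 2 * (Δ * ((edgesIn G S).card - 1) * D + v) ≤ n := by
    have h1 : (2 * (Δ * ((edgesIn G S).card - 1) : ℕ) : ℝ) ≤ K - 1 := by
      have h6 : (e : ℝ) = K - 1 := by rw [hK]; push_cast; ring
      rw [← h6]
      exact_mod_cast h
    set R := Δ * ((edgesIn G S).card - 1) with hRdef
    have h2 : (D : ℝ) ≤ (n : ℝ) / K + 1 / (2 * K ^ 2) * n := Nat.floor_le (by positivity)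
    have h3 : 2 * ((R : ℝ) * D + v) ≤ n := by
      have h4 : 2 * (R : ℝ) * D ≤ (K - 1) * ((n : ℝ) / K + 1 / (2 * K ^ 2) * n) :=
        mul_le_mul h1 h2 (Nat.cast_nonneg _) (by linarith)
      have h5 : (K - 1) * ((n : ℝ) / K + 1 / (2 * K ^ 2) * n)
          = n - n / K + (n / (2 * K)) - n / (2 * K ^ 2) := by
        field_simp
        ring
      have h6 : n / K = 2 * ((n : ℝ) / (2 * K)) := by field_simp
      have h7 : 2 * (v : ℝ) ≤ n / (2 * K) := by
        rw [le_div_iff₀ (by positivity)]
        nlinarith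
      have h8 : 0 ≤ (n : ℝ) / (2 * K ^ 2) := by positivity
      nlinarith
    exact_mod_cast h3
  have hg := exists_good c G S D Δ hDmax hΔ hR
  obtain ⟨x, hx⟩ := extend c G S (by rw [hedge]; omega) hdeg hvn hcore hg univ
    (Finset.subset_univ _)
  refine ⟨⟨x, fun a b hab => hx.1 a (mem_univ _) b (mem_univ _) hab⟩, ?_⟩
  intro a b a' b' h1 h2 h3
  exact hx.2 s(a, b) (mem_edgesIn_mk.mpr ⟨h1, mem_univ _, mem_univ _⟩) s(a', b')
    (mem_edgesIn_mk.mpr ⟨h2, mem_univ _, mem_univ _⟩) h3

end positive

/-- `S` contains the 2-core of `G`: every larger set of vertices has a vertex outside `S` with at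
most one neighbour in it. -/
def ContainsCore {V : Type} (G : SimpleGraph V) (S : Finset V) : Prop :=
  ∀ T : Finset V, S ⊂ T → ∃ u ∈ T, u ∉ S ∧ {w ∈ (T : Set V) | G.Adj u w}.ncard ≤ 1

/-- Let `G` have `e ≥ 2` edges. If `S` contains the 2-core of `G`, spans `h` edges and all degrees
inside `S` are at most `Δ`, then `2 Δ (h - 1) ≤ e` implies that `G` has the property of Erdos and
Tuza. If some nonempty `S` spans `h` edges with `14 e |S| ln e ≤ h ^ 2`, then `G` does not have it,
not even for colourings all of whose colour classes are regular of the same degree. -/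
theorem result {V : Type} [Fintype V] (G : SimpleGraph V) (he : 2 ≤ G.edgeSet.ncard) :
    (∀ (S : Finset V) (Δ : ℕ), ContainsCore G S →
      (∀ u ∈ S, {w ∈ (S : Set V) | G.Adj u w}.ncard ≤ Δ) →
      2 * (Δ * ((G.induce (S : Set V)).edgeSet.ncard - 1)) ≤ G.edgeSet.ncard → Forced G) ∧
    (∀ S : Finset V, S.Nonempty →
      14 * (G.edgeSet.ncard : ℝ) * S.card * Real.log G.edgeSet.ncard
        ≤ ((G.induce (S : Set V)).edgeSet.ncard : ℝ) ^ 2 →
      (∀ t : ℕ, ∃ c : EdgeColouring ((4 * (G.edgeSet.ncard + 1) + 1) ^ t) (G.edgeSet.ncard + 1),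
        c.CompletelyBalanced ∧ ¬ c.HasRainbow G) ∧ ¬ Forced G) :=
  ⟨fun S Δ hcore hΔ h1 => forced_of_core G S hcore Δ hΔ h1,
    fun S hS h2 => not_forced_of_dense G he S hS h2⟩

end Pool.Agent.Results.MP_b1acb3_co.CoreThreshold
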