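import Mathlib


namespace Pool.Agent.Results.MP_b1acb3_co.DenseSpot

open Finset

/-! levels and leading differences -/
section levels
variable {A : Type} [AddCommGroup A]

noncomputable def lev (x y : ℕ → A) : ℕ := sInf {i | x i ≠ y i}

theorem lev_ne {x y : ℕ → A} (h : x ≠ y) : x (lev x y) ≠ y (lev x y) := by
  have h1 : ({i | x i ≠ y i} : Set ℕ).Nonempty := Function.ne_iff.mp h
  exact Nat.sInf_mem h1

theorem lev_agree {x y : ℕ → A} {i : ℕ} (h : i < lev x y) : x i = y i := by
  by_contra h'
  exact absurd (Nat.sInf_le (s := {i | x i ≠ y i}) h') (not_le.mpr h)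

theorem lev_eq {x y : ℕ → A} {L : ℕ} (h1 : ∀ i < L, x i = y i) (h2 : x L ≠ y L) :
    lev x y = L := by
  apply le_antisymm (Nat.sInf_le h2)
  by_contra h
  push Not at h
  exact lev_ne (fun h' => h2 (by rw [h'])) (h1 _ h)

theorem lev_comm (x y : ℕ → A) : lev x y = lev y x := by
  unfold lev
  congr 1
  ext i
  exact ne_comm

noncomputable def lc (x y : ℕ → A) : A := x (lev x y) - y (lev x y)

theorem lc_comm (x y : ℕ → A) : lc x y = - lc y x := by
  unfold lc
  rw [lev_comm x y]
  abel

theorem tri_lt {x y z : ℕ → A} (hxy : x ≠ y) (h : lev x y < lev y z) :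
    lev x z = lev x y ∧ lc x z = lc x y := by
  have h1 : lev x z = lev x y := by
    apply lev_eq
    · intro i hi
      rw [lev_agree hi, lev_agree (hi.trans h)]
    · rw [← lev_agree h]
      exact lev_ne hxy
  refine ⟨h1, ?_⟩
  unfold lc
  rw [h1, lev_agree h]

theorem tri_gt {x y z : ℕ → A} (hyz : y ≠ z) (h : lev y z < lev x y) :
    lev x z = lev y z ∧ lc x z = lc y z := by
  have h1 := tri_lt (x := z) (y := y) (z := x) hyz.symm (by rw [lev_comm z y, lev_comm y x]; exact h)
  constructor
  · rw [lev_comm x z, h1.1, lev_comm]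
  · rw [lc_comm x z, h1.2, lc_comm z y, neg_neg]

theorem tri_eq {x y z : ℕ → A} (hxz : x ≠ z) (h : lev x y = lev y z) (h2 : lev x z ≤ lev y z) :
    lev x z = lev y z ∧ lc x z = lc x y + lc y z := by
  have h1 : lev x z = lev y z := by
    apply le_antisymm h2
    by_contra h3
    push Not at h3
    have h4 := lev_ne hxz
    rw [lev_agree (h ▸ h3 : lev x z < lev x y), lev_agree h3] at h4
    exact h4 rfl
  refine ⟨h1, ?_⟩
  unfold lc
  rw [h1, h]
  abel

noncomputable def rank (Λ : Finset ℕ) (l : ℕ) : ℕ := (Λ.filter (· < l)).card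

theorem rank_lt {Λ : Finset ℕ} {l l' : ℕ} (hl : l ∈ Λ) (h : l < l') : rank Λ l < rank Λ l' := by
  apply Finset.card_lt_card
  constructor
  · intro i hi
    simp only [mem_filter] at hi ⊢
    exact ⟨hi.1, hi.2.trans h⟩
  · intro h1
    have := h1 (mem_filter.mpr ⟨hl, h⟩)
    simp at this

theorem rank_lt_iff {Λ : Finset ℕ} {l l' : ℕ} (hl : l ∈ Λ) (hl' : l' ∈ Λ) :
    rank Λ l < rank Λ l' ↔ l < l' := by
  constructor
  · intro h
    by_contra h'
    push Not at h'
    rcases h'.lt_or_eq with h1 | h1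
    · exact absurd (rank_lt hl' h1) (by omega)
    · rw [h1] at h; exact lt_irrefl _ h
  · exact rank_lt hl

/-- code of an injective family of sequences -/
structure IsCode {v : ℕ} (x : Fin v → ℕ → A) (Λ : Finset ℕ) (C : Fin v → Fin v × Fin v × A) :
    Prop where
  lt : ∀ j : Fin v, 0 < (j : ℕ) → (C j).1 < j
  max : ∀ j : Fin v, 0 < (j : ℕ) → ∀ i < j, lev (x i) (x j) ≤ lev (x (C j).1) (x j)
  mem : ∀ j : Fin v, 0 < (j : ℕ) → lev (x (C j).1) (x j) ∈ Λ
  rk : ∀ j : Fin v, 0 < (j : ℕ) → rank Λ (lev (x (C j).1) (x j)) = ((C j).2.1 : ℕ)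
  lc : ∀ j : Fin v, 0 < (j : ℕ) → lc (x (C j).1) (x j) = (C j).2.2

theorem exists_code {v : ℕ} (x : Fin v → ℕ → A) : ∃ Λ C, IsCode x Λ C := by
  classical
  have h1 : ∀ j : Fin v, ∃ p : Fin v, 0 < (j : ℕ) →
      (p < j ∧ ∀ i < j, lev (x i) (x j) ≤ lev (x p) (x j)) := by
    intro j
    by_cases hj : 0 < (j : ℕ)
    · have hne : (univ.filter (fun i : Fin v => i < j)).Nonempty :=
        ⟨⟨0, by omega⟩, mem_filter.mpr ⟨mem_univ _, Fin.lt_def.mpr hj⟩⟩
      obtain ⟨p, hp, hp2⟩ := Finset.exists_max_image _ (fun i => lev (x i) (x j)) hne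
      refine ⟨p, fun _ => ⟨by simpa using hp, fun i hi => hp2 i (by simpa using hi)⟩⟩
    · exact ⟨j, fun h => absurd h hj⟩
  choose p hp using h1
  set Λ : Finset ℕ := (univ.filter (fun j : Fin v => 0 < (j : ℕ))).image
    (fun j => lev (x (p j)) (x j)) with hΛ
  have hcard : ∀ l, 0 < v → rank Λ l < v := by
    intro l hv
    calc rank Λ l ≤ Λ.card := Finset.card_le_card (Finset.filter_subset _ _)
      _ ≤ (univ.filter (fun j : Fin v => 0 < (j : ℕ))).card := Finset.card_image_le
      _ < (univ : Finset (Fin v)).card := by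
        apply Finset.card_lt_card
        refine ⟨Finset.filter_subset _ _, fun h => ?_⟩
        have := h (mem_univ (⟨0, hv⟩ : Fin v))
        simp at this
      _ = v := by simp
  refine ⟨Λ, fun j => (p j, ⟨rank Λ (lev (x (p j)) (x j)), hcard _ (by have := j.2; omega)⟩,
    Pool.Agent.Results.MP_b1acb3_co.DenseSpot.lc (x (p j)) (x j)), ?_, ?_, ?_, ?_, ?_⟩
  · intro j hj; exact (hp j hj).1
  · intro j hj; exact (hp j hj).2
  · intro j hj
    exact Finset.mem_image.mpr ⟨j, by simpa using hj, rfl⟩
  · intro j hj; rfl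
  · intro j hj; rfl

theorem decode {v : ℕ} {x x' : Fin v → ℕ → A} (hx : Function.Injective x)
    (hx' : Function.Injective x') {Λ Λ' : Finset ℕ} {C : Fin v → Fin v × Fin v × A}
    (h : IsCode x Λ C) (h' : IsCode x' Λ' C) :
    ∀ n : ℕ, ∀ j : Fin v, (j : ℕ) = n → ∀ i < j,
      lev (x i) (x j) ∈ Λ ∧ lev (x' i) (x' j) ∈ Λ' ∧
      rank Λ (lev (x i) (x j)) = rank Λ' (lev (x' i) (x' j)) ∧
      lc (x i) (x j) = lc (x' i) (x' j) := by
  intro n
  induction n using Nat.strong_induction_on with
  | _ n ih =>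
    intro j hj i hi
    have hj0 : 0 < (j : ℕ) := lt_of_le_of_lt (Nat.zero_le _) (Fin.lt_def.mp hi)
    set p := (C j).1 with hp
    have hpj := h.lt j hj0
    rcases eq_or_ne i p with hip | hip
    · rw [hip]
      refine ⟨h.mem j hj0, h'.mem j hj0, ?_, ?_⟩
      · rw [h.rk j hj0, h'.rk j hj0]
      · rw [h.lc j hj0, h'.lc j hj0]
    · -- the pair (i, p)
      have key : lev (x i) (x p) ∈ Λ ∧ lev (x' i) (x' p) ∈ Λ' ∧
          rank Λ (lev (x i) (x p)) = rank Λ' (lev (x' i) (x' p)) ∧
          lc (x i) (x p) = lc (x' i) (x' p) := by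
        rcases lt_or_gt_of_ne hip with h1 | h1
        · exact ih p (by rw [← hj]; exact hpj) p rfl i h1
        · have := ih i (by rw [← hj]; exact hi) i rfl p h1
          rw [lev_comm (x i), lev_comm (x' i), lc_comm (x i), lc_comm (x' i)]
          exact ⟨this.1, this.2.1, this.2.2.1, by rw [this.2.2.2]⟩
      obtain ⟨k1, k2, k3, k4⟩ := key
      have m1 := h.mem j hj0
      have m2 := h'.mem j hj0
      have r12 : rank Λ (lev (x p) (x j)) = rank Λ' (lev (x' p) (x' j)) := by
        rw [h.rk j hj0, h'.rk j hj0]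
      have l12 : lc (x p) (x j) = lc (x' p) (x' j) := by rw [h.lc j hj0, h'.lc j hj0]
      have nip : x i ≠ x p := fun e => hip (hx e)
      have nip' : x' i ≠ x' p := fun e => hip (hx' e)
      have npj : x p ≠ x j := fun e => hpj.ne (hx e)
      have npj' : x' p ≠ x' j := fun e => hpj.ne (hx' e)
      have nij : x i ≠ x j := fun e => hi.ne (hx e)
      have nij' : x' i ≠ x' j := fun e => hi.ne (hx' e)
      rcases lt_trichotomy (lev (x i) (x p)) (lev (x p) (x j)) with hlt | heq | hgt
      · have hlt' : lev (x' i) (x' p) < lev (x' p) (x' j) := by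
          rw [← rank_lt_iff k2 m2, ← k3, ← r12, rank_lt_iff k1 m1]; exact hlt
        have t := tri_lt nip hlt
        have t' := tri_lt nip' hlt'
        rw [t.1, t'.1, t.2, t'.2]
        exact ⟨k1, k2, k3, k4⟩
      · have heq' : lev (x' i) (x' p) = lev (x' p) (x' j) := by
          rcases lt_trichotomy (lev (x' i) (x' p)) (lev (x' p) (x' j)) with a | a | a
          · rw [← rank_lt_iff k2 m2, ← k3, ← r12, heq] at a
            exact absurd a (lt_irrefl _)
          · exact a
          · rw [← rank_lt_iff m2 k2, ← k3, ← r12, heq] at a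
            exact absurd a (lt_irrefl _)
        have t := tri_eq nij heq (h.max j hj0 i hi)
        have t' := tri_eq nij' heq' (h'.max j hj0 i hi)
        rw [t.1, t'.1, t.2, t'.2]
        exact ⟨m1, m2, r12, by rw [k4, l12]⟩
      · have hgt' : lev (x' p) (x' j) < lev (x' i) (x' p) := by
          rw [← rank_lt_iff m2 k2, ← k3, ← r12, rank_lt_iff m1 k1]; exact hgt
        have t := tri_gt npj hgt
        have t' := tri_gt npj' hgt'
        rw [t.1, t'.1, t.2, t'.2]
        exact ⟨m1, m2, r12, l12⟩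

/-- the pattern of leading differences -/
noncomputable def pat {v : ℕ} (x : Fin v → ℕ → A) : Fin v → Fin v → A :=
  fun i j => lc (x i) (x j)

theorem lc_self (y : ℕ → A) : lc y y = 0 := by unfold lc; simp

theorem pat_eq {v : ℕ} {x x' : Fin v → ℕ → A} (hx : Function.Injective x)
    (hx' : Function.Injective x') {Λ Λ' : Finset ℕ} {C : Fin v → Fin v × Fin v × A}
    (h : IsCode x Λ C) (h' : IsCode x' Λ' C) : pat x = pat x' := by
  funext i j
  unfold pat
  rcases lt_trichotomy i j with h1 | h1 | h1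
  · exact (decode hx hx' h h' j j rfl i h1).2.2.2
  · rw [h1, lc_self, lc_self]
  · rw [lc_comm, lc_comm (x' i), (decode hx hx' h h' i i rfl j h1).2.2.2]

open Classical in
theorem card_patterns (v : ℕ) [Fintype A] :
    ((univ : Finset (Fin v → Fin v → A)).filter
      (fun D => ∃ x : Fin v → ℕ → A, Function.Injective x ∧ D = pat x)).card
      ≤ (v * v * Fintype.card A) ^ v := by
  have hch : ∀ D : Fin v → Fin v → A, ∃ C : Fin v → Fin v × Fin v × A,
      (∃ x : Fin v → ℕ → A, Function.Injective x ∧ D = pat x) →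
      ∃ (x : Fin v → ℕ → A) (Λ : Finset ℕ), Function.Injective x ∧ D = pat x ∧ IsCode x Λ C := by
    intro D
    by_cases hD : ∃ x : Fin v → ℕ → A, Function.Injective x ∧ D = pat x
    · obtain ⟨x, hx, hxD⟩ := hD
      obtain ⟨Λ, C, hC⟩ := exists_code x
      exact ⟨C, fun _ => ⟨x, Λ, hx, hxD, hC⟩⟩
    · by_cases hne : Nonempty (Fin v → Fin v × Fin v × A)
      · exact ⟨hne.some, fun h => absurd h hD⟩
      · exact absurd ⟨fun i => (i, i, 0)⟩ hne
  choose F hF using hch
  have hcard : (univ : Finset (Fin v → Fin v × Fin v × A)).card = (v * v * Fintype.card A) ^ v := by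
    simp [Fintype.card_prod, mul_assoc]
  rw [← hcard]
  apply Finset.card_le_card_of_injOn F (fun _ _ => mem_coe.mpr (mem_univ _))
  intro D hD D' hD' hEq
  simp only [coe_filter, mem_univ, true_and, Set.mem_ofPred_eq] at hD hD'
  obtain ⟨x, Λ, hx, hxD, hC⟩ := hF D hD
  obtain ⟨x', Λ', hx', hxD', hC'⟩ := hF D' hD'
  rw [hxD, hxD']
  exact pat_eq hx hx' hC (hEq ▸ hC')

end levels


theorem exists_perm {α E : Type*} [Finite α] (h h' : E ↪ α) :
    ∃ τ : Equiv.Perm α, ∀ e, τ (h e) = h' e := by
  classical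
  have := Fintype.ofFinite α
  let e0 : {x // x ∈ Set.range h} ≃ {x // x ∈ Set.range h'} :=
    (Equiv.ofInjective h h.injective).symm.trans (Equiv.ofInjective h' h'.injective)
  refine ⟨e0.extendSubtype, fun e => ?_⟩
  rw [Equiv.extendSubtype_apply_of_mem e0 (h e) ⟨e, rfl⟩]
  have : (Equiv.ofInjective h h.injective).symm ⟨h e, ⟨e, rfl⟩⟩ = e := by
    rw [Equiv.symm_apply_eq]; rfl
  simp only [e0, Equiv.trans_apply, this]
  rfl

open Classical in
theorem count_rainbow {k : ℕ} {Q E : Type} [Fintype Q] [Fintype E]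
    (hQ : Fintype.card Q = k * 2) (κ : E → Q) :
    (univ.filter (fun σ : Q ≃ Fin k × Fin 2 =>
        Function.Injective (fun a => (σ (κ a)).1))).card * (k * 2).descFactorial (Fintype.card E)
      ≤ (k * 2).factorial * (k.descFactorial (Fintype.card E) * 2 ^ (Fintype.card E)) := by
  by_cases hκ : Function.Injective κ
  · set κ' : E ↪ Q := ⟨κ, hκ⟩ with hκ'
    rcases isEmpty_or_nonempty (E ↪ Fin k × Fin 2) with hem | ⟨⟨h0⟩⟩
    · have : (univ.filter (fun σ : Q ≃ Fin k × Fin 2 =>
        Function.Injective (fun a => (σ (κ a)).1))) = ∅ := by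
        apply Finset.filter_false_of_mem
        intro σ _
        exact absurd ⟨κ'.trans σ.toEmbedding⟩ (not_nonempty_iff.mpr hem)
      rw [this]; simp
    · set N : (E ↪ Fin k × Fin 2) → ℕ := fun h =>
        (univ.filter (fun σ : Q ≃ Fin k × Fin 2 => κ'.trans σ.toEmbedding = h)).card with hN
      have hNN : ∀ h, N h = N h0 := by
        intro h
        obtain ⟨τ, hτ⟩ := exists_perm h h0
        apply Finset.card_bij (fun σ _ => σ.trans τ)
        · intro σ hσ
          rw [mem_filter] at hσ ⊢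
          refine ⟨mem_univ _, ?_⟩
          ext1 a
          have : σ (κ a) = h a := by rw [← hσ.2]; rfl
          show τ (σ (κ a)) = h0 a
          rw [this, hτ]
        · intro σ _ σ' _ hh
          ext1 a
          exact τ.injective (by simpa using congrArg (fun e => e a) hh)
        · intro σ hσ
          rw [mem_filter] at hσ
          refine ⟨σ.trans τ.symm, ?_, ?_⟩
          · rw [mem_filter]
            refine ⟨mem_univ _, ?_⟩
            ext1 a
            have : σ (κ a) = h0 a := by rw [← hσ.2]; rfl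
            show τ.symm (σ (κ a)) = h a
            rw [this, ← hτ, Equiv.symm_apply_apply]
          · ext1 a
            simp
      have htot : (k * 2).factorial = (k * 2).descFactorial (Fintype.card E) * N h0 := by
        have e1 : Fintype.card (Q ≃ Fin k × Fin 2) = (k * 2).factorial := by
          rw [Fintype.card_equiv (Fintype.equivOfCardEq (by rw [hQ]; simp)), hQ]
        have e2 : (univ : Finset (Q ≃ Fin k × Fin 2)).card
            = ∑ h : E ↪ Fin k × Fin 2, N h := by
          rw [Finset.card_eq_sum_card_fiberwise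
            (f := fun σ : Q ≃ Fin k × Fin 2 => κ'.trans σ.toEmbedding) (t := univ)
            (fun _ _ => mem_coe.mpr (mem_univ _))]
        rw [← e1, ← Finset.card_univ, e2, Finset.sum_congr rfl (fun h _ => hNN h)]
        rw [Finset.sum_const, smul_eq_mul, Finset.card_univ, Fintype.card_embedding_eq]
        simp
      set T := univ.filter (fun h : E ↪ Fin k × Fin 2 => Function.Injective (fun a => (h a).1))
        with hT
      have hgood : (univ.filter (fun σ : Q ≃ Fin k × Fin 2 =>
          Function.Injective (fun a => (σ (κ a)).1))).card = T.card * N h0 := by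
        rw [Finset.card_eq_sum_card_fiberwise (f := fun σ => κ'.trans σ.toEmbedding) (t := T)]
        · rw [Finset.sum_congr rfl (g := fun _ => N h0)]
          · rw [Finset.sum_const, smul_eq_mul]
          · intro h hh
            rw [← hNN h, hN]
            congr 1
            ext σ
            simp only [mem_filter, mem_univ, true_and, and_iff_right_iff_imp]
            intro h1
            rw [hT, mem_filter] at hh
            have h2 := hh.2
            rw [← h1] at h2
            exact h2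
        · intro σ hσ
          rw [mem_coe, mem_filter] at hσ
          rw [hT]
          exact mem_coe.mpr (mem_filter.mpr ⟨mem_univ _, hσ.2⟩)
      have hTcard : T.card ≤ k.descFactorial (Fintype.card E) * 2 ^ (Fintype.card E) := by
        have h1 : Fintype.card ((E ↪ Fin k) × (E → Fin 2))
            = k.descFactorial (Fintype.card E) * 2 ^ (Fintype.card E) := by
          rw [Fintype.card_prod, Fintype.card_embedding_eq, Fintype.card_fun]; simp
        rw [← h1, ← Fintype.card_coe]
        apply Fintype.card_le_of_injective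
          (fun h : T => ((⟨fun a => (h.1 a).1, (mem_filter.mp h.2).2⟩ : E ↪ Fin k),
            fun a => (h.1 a).2))
        intro h h' hh
        apply Subtype.ext
        ext1 a
        simp only [Prod.mk.injEq, Function.Embedding.mk.injEq] at hh
        exact Prod.ext (congrFun hh.1 a) (congrFun hh.2 a)
      rw [hgood, htot]
      calc T.card * N h0 * (k * 2).descFactorial (Fintype.card E)
          = (k * 2).descFactorial (Fintype.card E) * N h0 * T.card := by ring
        _ ≤ _ := Nat.mul_le_mul_left _ hTcard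
  · have : (univ.filter (fun σ : Q ≃ Fin k × Fin 2 =>
        Function.Injective (fun a => (σ (κ a)).1))) = ∅ := by
      apply Finset.filter_false_of_mem
      intro σ _ h
      apply hκ
      intro a b hab
      apply h
      simp only [hab]
    rw [this]; simp

open Classical in
/-- union bound -/
theorem exists_sigma {k : ℕ} {Q E ι : Type} [Fintype Q] [Fintype E]
    (hQ : Fintype.card Q = k * 2) (S : Finset ι) (κ : ι → E → Q)
    (hS : S.card * (k.descFactorial (Fintype.card E) * 2 ^ (Fintype.card E))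
      < (k * 2).descFactorial (Fintype.card E)) :
    ∃ σ : Q ≃ Fin k × Fin 2, ∀ D ∈ S, ¬ Function.Injective (fun a => (σ (κ D a)).1) := by
  by_contra hcon
  push Not at hcon
  have h1 : (univ : Finset (Q ≃ Fin k × Fin 2)) ⊆ S.biUnion (fun D =>
      univ.filter (fun σ : Q ≃ Fin k × Fin 2 => Function.Injective (fun a => (σ (κ D a)).1))) := by
    intro σ _
    obtain ⟨D, hD, h⟩ := hcon σ
    exact mem_biUnion.mpr ⟨D, hD, mem_filter.mpr ⟨mem_univ _, h⟩⟩
  have h2 := (Finset.card_le_card h1).trans Finset.card_biUnion_le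
  have e1 : (univ : Finset (Q ≃ Fin k × Fin 2)).card = (k * 2).factorial := by
    rw [Finset.card_univ, Fintype.card_equiv (Fintype.equivOfCardEq (by rw [hQ]; simp)), hQ]
  rw [e1] at h2
  have h3 : (k * 2).factorial * (k * 2).descFactorial (Fintype.card E) ≤
      (k * 2).factorial * (S.card *
        (k.descFactorial (Fintype.card E) * 2 ^ (Fintype.card E))) := by
    calc (k * 2).factorial * (k * 2).descFactorial (Fintype.card E)
        ≤ (∑ D ∈ S, (univ.filter (fun σ : Q ≃ Fin k × Fin 2 =>
            Function.Injective (fun a => (σ (κ D a)).1))).card)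
            * (k * 2).descFactorial (Fintype.card E) := Nat.mul_le_mul_right _ h2
      _ = ∑ D ∈ S, (univ.filter (fun σ : Q ≃ Fin k × Fin 2 =>
            Function.Injective (fun a => (σ (κ D a)).1))).card
            * (k * 2).descFactorial (Fintype.card E) := by rw [Finset.sum_mul]
      _ ≤ ∑ D ∈ S, (k * 2).factorial *
            (k.descFactorial (Fintype.card E) * 2 ^ (Fintype.card E)) :=
          Finset.sum_le_sum (fun D _ => count_rainbow hQ (κ D))
      _ = _ := by rw [Finset.sum_const, smul_eq_mul]; ring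
  have h4 := Nat.le_of_mul_le_mul_left h3 (Nat.factorial_pos _)
  omega

theorem numeric1 {k N : ℕ} (hk : 1 ≤ k) (h : N * (k * (k + 1)) < 2 ^ k) :
    N * (k.descFactorial (k - 1) * 2 ^ (k - 1)) < (k * 2).descFactorial (k - 1) := by
  obtain ⟨n, rfl⟩ : ∃ n, k = n + 1 := ⟨k - 1, by omega⟩
  simp only [Nat.add_sub_cancel]
  have d1 : (n + 1).descFactorial n = (n + 1).factorial := by
    have := Nat.factorial_mul_descFactorial (show n ≤ n + 1 by omega)
    simpa using this
  have d2 : (n + 2).factorial * ((n + 1) * 2).descFactorial n = ((n + 1) * 2).factorial := by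
    have := Nat.factorial_mul_descFactorial (show n ≤ (n + 1) * 2 by omega)
    rwa [show (n + 1) * 2 - n = n + 2 by omega] at this
  have d3 : (n + 1).centralBinom * (n + 1).factorial * (n + 1).factorial
      = ((n + 1) * 2).factorial := by
    have := Nat.choose_mul_factorial_mul_factorial (show n + 1 ≤ 2 * (n + 1) by omega)
    rw [show 2 * (n + 1) - (n + 1) = n + 1 by omega] at this
    rw [Nat.centralBinom, mul_comm (n + 1) 2]
    exact this
  have d4 := Nat.four_pow_le_two_mul_self_mul_centralBinom (n + 1) (by omega)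
  rw [d1]
  apply Nat.lt_of_mul_lt_mul_left (a := (n + 2).factorial)
  rw [d2, ← d3]
  have hF : (n + 2).factorial = (n + 2) * (n + 1).factorial := Nat.factorial_succ _
  rw [hF]
  have hmain : N * ((n + 2) * 2 ^ n) < (n + 1).centralBinom := by
    have e1 : (4 : ℕ) ^ (n + 1) = 2 ^ (n + 1) * 2 ^ (n + 1) := by
      rw [← mul_pow]
      norm_num
    rw [e1] at d4
    by_contra hc
    push Not at hc
    have h5 : 2 * (n + 1) * (n + 1).centralBinom ≤ 2 * (n + 1) * (N * ((n + 2) * 2 ^ n)) :=
      Nat.mul_le_mul_left _ hc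
    have h6 : 2 * (n + 1) * (N * ((n + 2) * 2 ^ n)) = (N * ((n + 1) * (n + 1 + 1))) * 2 ^ (n + 1) := by
      rw [pow_succ]; ring
    have h7 : (N * ((n + 1) * (n + 1 + 1))) * 2 ^ (n + 1) < 2 ^ (n + 1) * 2 ^ (n + 1) :=
      Nat.mul_lt_mul_of_pos_right h (by positivity)
    omega
  have hf0 : 0 < (n + 1).factorial * (n + 1).factorial := by positivity
  calc (n + 2) * (n + 1).factorial * (N * ((n + 1).factorial * 2 ^ n))
      = (N * ((n + 2) * 2 ^ n)) * ((n + 1).factorial * (n + 1).factorial) := by ring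
    _ < (n + 1).centralBinom * ((n + 1).factorial * (n + 1).factorial) :=
        Nat.mul_lt_mul_of_pos_right hmain hf0
    _ = _ := by ring

theorem numeric2 {v e : ℕ} (hv : 2 ≤ v) (he : 2 * e ≤ v * (v - 1)) (h : v ^ (5 * v) ≤ 2 ^ e) :
    (v * v * (4 * e + 5)) ^ v * ((e + 1) * (e + 1 + 1)) < 2 ^ (e + 1) := by
  have h1 : 5 * v ≤ e := by
    have : (2 : ℕ) ^ (5 * v) ≤ 2 ^ e := (Nat.pow_le_pow_left hv _).trans h
    exact (Nat.pow_le_pow_iff_right (by norm_num)).mp this
  obtain ⟨w, rfl⟩ : ∃ w, v = w + 1 := ⟨v - 1, by omega⟩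
  simp only [Nat.add_sub_cancel] at he
  have h2 : 10 ≤ w := by nlinarith
  have h3 : 4 * e + 5 ≤ 2 * ((w + 1) * (w + 1)) := by nlinarith
  have h4 : (e + 1) * (e + 1 + 1) ≤ (w + 1) ^ 4 := by
    have h5 : e + 2 ≤ (w + 1) * (w + 1) := by nlinarith
    calc (e + 1) * (e + 1 + 1) ≤ ((w + 1) * (w + 1)) * ((w + 1) * (w + 1)) :=
          Nat.mul_le_mul (by omega) (by omega)
      _ = _ := by ring
  set v := w + 1 with hvw
  have h6 : (v * v * (4 * e + 5)) ^ v ≤ 2 ^ v * v ^ (4 * v) := by
    calc (v * v * (4 * e + 5)) ^ v ≤ (2 * v ^ 4) ^ v := by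
          apply Nat.pow_le_pow_left
          calc v * v * (4 * e + 5) ≤ v * v * (2 * (v * v)) := Nat.mul_le_mul_left _ h3
            _ = 2 * v ^ 4 := by ring
      _ = 2 ^ v * v ^ (4 * v) := by rw [mul_pow, ← pow_mul]
  have h7 : 2 ^ v * v ^ 4 < 2 * v ^ v := by
    have e1 : v ^ v = v ^ (v - 4) * v ^ 4 := by
      rw [← pow_add]; congr 1; omega
    rw [e1, ← mul_assoc]
    apply Nat.mul_lt_mul_of_pos_right _ (by positivity)
    calc 2 ^ v < 2 * 8 ^ (v - 4) := by
          rw [show (8 : ℕ) = 2 ^ 3 by norm_num, ← pow_mul, ← pow_succ']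
          apply Nat.pow_lt_pow_right (by norm_num)
          omega
      _ ≤ 2 * v ^ (v - 4) := Nat.mul_le_mul_left _ (Nat.pow_le_pow_left (by omega) _)
  calc (v * v * (4 * e + 5)) ^ v * ((e + 1) * (e + 1 + 1))
      ≤ (2 ^ v * v ^ (4 * v)) * v ^ 4 := Nat.mul_le_mul h6 h4
    _ = v ^ (4 * v) * (2 ^ v * v ^ 4) := by ring
    _ < v ^ (4 * v) * (2 * v ^ v) := Nat.mul_lt_mul_of_pos_left h7 (by positivity)
    _ = 2 * v ^ (5 * v) := by rw [show 5 * v = 4 * v + v by ring, pow_add]; ring
    _ ≤ 2 * 2 ^ e := Nat.mul_le_mul_left _ h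
    _ = 2 ^ (e + 1) := by rw [pow_succ]; ring

/-! finite sequences as sequences -/
section seqs
variable {A : Type} [AddCommGroup A]

def ext {t : ℕ} (x : Fin t → A) : ℕ → A := fun i => if h : i < t then x ⟨i, h⟩ else 0

theorem ext_injective {t : ℕ} : Function.Injective (ext : (Fin t → A) → ℕ → A) := by
  intro x y h
  funext i
  have := congrFun h i
  simpa [ext, i.2] using this

theorem ext_cons_zero {t : ℕ} (a : A) (z : Fin t → A) :
    ext (Fin.cons a z : Fin (t + 1) → A) 0 = a := by
  simp [ext]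

theorem ext_cons_succ {t : ℕ} (a : A) (z : Fin t → A) (i : ℕ) :
    ext (Fin.cons a z : Fin (t + 1) → A) (i + 1) = ext z i := by
  unfold ext
  by_cases h : i < t
  · rw [dif_pos (by omega : i + 1 < t + 1), dif_pos h]
    exact Fin.cons_succ (α := fun _ => A) a z ⟨i, h⟩
  · rw [dif_neg (by omega), dif_neg h]

theorem lc_cons_ne {t : ℕ} {a b : A} (h : a ≠ b) (z w : Fin t → A) :
    lc (ext (Fin.cons a z : Fin (t + 1) → A)) (ext (Fin.cons b w : Fin (t + 1) → A)) = a - b := by
  have h1 : lev (ext (Fin.cons a z : Fin (t + 1) → A)) (ext (Fin.cons b w : Fin (t + 1) → A)) = 0 :=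
    lev_eq (fun i hi => absurd hi (Nat.not_lt_zero _)) (by rw [ext_cons_zero, ext_cons_zero]; exact h)
  unfold lc
  rw [h1, ext_cons_zero, ext_cons_zero]

theorem lc_cons_eq {t : ℕ} (a : A) {z w : Fin t → A} (h : z ≠ w) :
    lc (ext (Fin.cons a z : Fin (t + 1) → A)) (ext (Fin.cons a w : Fin (t + 1) → A))
      = lc (ext z) (ext w) := by
  have h0 : ext z ≠ ext w := fun e => h (ext_injective e)
  have h1 : lev (ext (Fin.cons a z : Fin (t + 1) → A)) (ext (Fin.cons a w : Fin (t + 1) → A))
      = lev (ext z) (ext w) + 1 := by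
    apply lev_eq
    · intro i hi
      cases i with
      | zero => rw [ext_cons_zero, ext_cons_zero]
      | succ i =>
        rw [ext_cons_succ, ext_cons_succ]
        exact lev_agree (by omega)
    · rw [ext_cons_succ, ext_cons_succ]
      exact lev_ne h0
  unfold lc
  rw [h1, ext_cons_succ, ext_cons_succ]

open Classical in
theorem count_shift [Fintype A] {k r : ℕ} (φ : A → Fin k)
    (hφ : ∀ c, (univ.filter (fun d : A => d ≠ 0 ∧ φ d = c)).card = r) (a : A) (c : Fin k) :
    (univ.filter (fun b : A => b ≠ a ∧ φ (a - b) = c)).card = r := by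
  rw [← hφ c]
  apply Finset.card_bij (fun b _ => a - b)
  · intro b hb
    simp only [mem_filter, mem_univ, true_and] at hb ⊢
    exact ⟨sub_ne_zero.mpr hb.1.symm, hb.2⟩
  · intro b _ b' _ h
    simpa using h
  · intro d hd
    simp only [mem_filter, mem_univ, true_and] at hd
    refine ⟨a - d, ?_, by abel⟩
    simp only [mem_filter, mem_univ, true_and]
    refine ⟨fun h => hd.1 (by simpa using h), by rw [sub_sub_cancel]; exact hd.2⟩

open Classical in
theorem balanced_count [Fintype A] {k r : ℕ} (φ : A → Fin k)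
    (hφ : ∀ c, (univ.filter (fun d : A => d ≠ 0 ∧ φ d = c)).card = r)
    (hr : k * r + 1 = Fintype.card A) (t : ℕ) (x : Fin t → A) (c : Fin k) :
    k * (univ.filter (fun y : Fin t → A => y ≠ x ∧ φ (lc (ext x) (ext y)) = c)).card + 1
      = Fintype.card A ^ t := by
  induction t with
  | zero =>
    have : (univ.filter (fun y : Fin 0 → A => y ≠ x ∧ φ (lc (ext x) (ext y)) = c)) = ∅ := by
      apply Finset.filter_false_of_mem
      intro y _ h
      exact h.1 (Subsingleton.elim _ _)
    rw [this]; simp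
  | succ t ih =>
    obtain ⟨a, z, rfl⟩ : ∃ a z, x = Fin.cons a z := ⟨x 0, Fin.tail x, (Fin.cons_self_tail x).symm⟩
    set M := Fintype.card A ^ t with hM
    set N := (univ.filter (fun y : Fin t → A => y ≠ z ∧ φ (lc (ext z) (ext y)) = c)).card with hN
    have hmain : (univ.filter (fun y : Fin (t + 1) → A => y ≠ (Fin.cons a z : Fin (t + 1) → A) ∧
        φ (lc (ext (Fin.cons a z : Fin (t + 1) → A)) (ext y)) = c)).card = N + r * M := by
      rw [Finset.card_filter, ← Equiv.sum_comp (Fin.consEquiv (fun _ : Fin (t + 1) => A)),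
        Fintype.sum_prod_type]
      have hin : ∀ b : A, (∑ w : Fin t → A,
          (if (Fin.consEquiv (fun _ : Fin (t + 1) => A)) (b, w) ≠ (Fin.cons a z : Fin (t + 1) → A) ∧
            φ (lc (ext (Fin.cons a z : Fin (t + 1) → A))
              (ext ((Fin.consEquiv (fun _ : Fin (t + 1) => A)) (b, w)))) = c then 1 else 0))
          = (if b = a then N else 0) + (if b ≠ a ∧ φ (a - b) = c then M else 0) := by
        intro b
        by_cases hb : b = a
        · subst hb
          rw [if_pos rfl, if_neg (by simp), add_zero, hN, Finset.card_filter]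
          apply Finset.sum_congr rfl
          intro w _
          have e1 : (Fin.consEquiv (fun _ : Fin (t + 1) => A)) (b, w)
              = (Fin.cons b w : Fin (t + 1) → A) := rfl
          rw [e1]
          by_cases hw : w = z
          · subst hw; simp
          · have e2 : ((Fin.cons b w : Fin (t + 1) → A) ≠ Fin.cons b z) := by
              intro h; exact hw (Fin.cons_injective2 h).2
            rw [lc_cons_eq b (Ne.symm hw)]
            simp [hw]
        · rw [if_neg hb, zero_add]
          have e0 : ∀ w : Fin t → A,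
              (if (Fin.consEquiv (fun _ : Fin (t + 1) => A)) (b, w)
                ≠ (Fin.cons a z : Fin (t + 1) → A) ∧
                φ (lc (ext (Fin.cons a z : Fin (t + 1) → A))
                (ext ((Fin.consEquiv (fun _ : Fin (t + 1) => A)) (b, w)))) = c then 1 else 0)
              = (if b ≠ a ∧ φ (a - b) = c then 1 else 0) := by
            intro w
            have e1 : (Fin.consEquiv (fun _ : Fin (t + 1) => A)) (b, w)
              = (Fin.cons b w : Fin (t + 1) → A) := rfl
            rw [e1, lc_cons_ne (Ne.symm hb)]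
            have e2 : ((Fin.cons b w : Fin (t + 1) → A) ≠ Fin.cons a z) := by
              intro h; exact hb (Fin.cons_injective2 h).1
            simp [e2, hb]
          rw [Finset.sum_congr rfl (fun w _ => e0 w), Finset.sum_const, Finset.card_univ]
          have e3 : Fintype.card (Fin t → A) = M := by simp [hM]
          rw [e3]
          split_ifs <;> simp
      rw [Finset.sum_congr rfl (fun b _ => hin b), Finset.sum_add_distrib]
      have s1 : ∑ b : A, (if b = a then N else 0) = N := by simp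
      have s2 : ∑ b : A, (if b ≠ a ∧ φ (a - b) = c then M else 0) = r * M := by
        rw [← Finset.sum_filter, Finset.sum_const, count_shift φ hφ a c, smul_eq_mul]
      rw [s1, s2]
    rw [hmain]
    have h1 := ih z
    rw [pow_succ, ← hM, ← hr]
    have h2 : k * N + 1 = M := h1
    calc k * (N + r * M) + 1 = (k * N + 1) + k * r * M := by ring
      _ = M * (k * r + 1) := by rw [h2]; ring

end seqs

/-! the cyclic group -/
section cyc

def cls (k : ℕ) (hk : 1 ≤ k) (d : ZMod (4 * k + 1)) : Fin (k * 2) :=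
  ⟨(d.valMinAbs.natAbs - 1) % (k * 2), Nat.mod_lt _ (by omega)⟩

theorem cls_neg (k : ℕ) (hk : 1 ≤ k) (d : ZMod (4 * k + 1)) : cls k hk (-d) = cls k hk d := by
  apply Fin.ext
  show ((-d).valMinAbs.natAbs - 1) % (k * 2) = (d.valMinAbs.natAbs - 1) % (k * 2)
  rw [ZMod.natAbs_valMinAbs_neg]

theorem cls_cast (k : ℕ) (hk : 1 ≤ k) (j : Fin (k * 2)) :
    cls k hk (((j : ℕ) + 1 : ℕ) : ZMod (4 * k + 1)) = j := by
  have h : (((j : ℕ) + 1 : ℕ) : ZMod (4 * k + 1)).valMinAbs = ((j : ℕ) + 1 : ℕ) :=
    ZMod.valMinAbs_natCast_of_le_half (by omega)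
  apply Fin.ext
  show ((((j : ℕ) + 1 : ℕ) : ZMod (4 * k + 1)).valMinAbs.natAbs - 1) % (k * 2) = (j : ℕ)
  rw [h]
  simp only [Int.natAbs_natCast, Nat.add_sub_cancel]
  exact Nat.mod_eq_of_lt j.2

open Classical in
theorem count_colour (k : ℕ) (hk : 1 ≤ k) (σ : Fin (k * 2) ≃ Fin k × Fin 2) (c : Fin k) :
    (univ.filter (fun d : ZMod (4 * k + 1) => d ≠ 0 ∧ (σ (cls k hk d)).1 = c)).card = 4 := by
  set ψ : Fin (k * 2) × Bool → ZMod (4 * k + 1) := fun p =>
    if p.2 then (((p.1 : ℕ) + 1 : ℕ) : ZMod (4 * k + 1)) else -(((p.1 : ℕ) + 1 : ℕ) : ZMod (4 * k + 1))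
    with hψ
  have hcls : ∀ p, cls k hk (ψ p) = p.1 := by
    rintro ⟨j, b⟩
    cases b
    · simp only [hψ, Bool.false_eq_true, if_false]
      rw [cls_neg, cls_cast]
    · simp only [hψ, if_true]
      rw [cls_cast]
  have hnz : ∀ j : Fin (k * 2), (((j : ℕ) + 1 : ℕ) : ZMod (4 * k + 1)) ≠ 0 := by
    intro j h
    rw [ZMod.natCast_eq_zero_iff] at h
    have := Nat.le_of_dvd (by omega) h
    omega
  have hne : ∀ p, ψ p ≠ 0 := by
    rintro ⟨j, b⟩
    cases b
    · simp only [hψ, Bool.false_eq_true, if_false]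
      exact neg_ne_zero.mpr (hnz j)
    · simp only [hψ, if_true]
      exact hnz j
  have hinj : Function.Injective ψ := by
    rintro ⟨j, b⟩ ⟨j', b'⟩ h
    have h1 : (j, b).1 = (j', b').1 := by rw [← hcls (j, b), ← hcls (j', b'), h]
    simp only at h1
    subst h1
    have h2 : (((j : ℕ) + 1 : ℕ) : ZMod (4 * k + 1)) ≠ -(((j : ℕ) + 1 : ℕ) : ZMod (4 * k + 1)) := by
      intro h3
      have h4 : (((2 * ((j : ℕ) + 1)) : ℕ) : ZMod (4 * k + 1)) = 0 := by
        push_cast
        push_cast at h3
        linear_combination h3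
      rw [ZMod.natCast_eq_zero_iff] at h4
      have := Nat.le_of_dvd (by omega) h4
      omega
    cases b <;> cases b'
    · rfl
    · simp only [hψ, Bool.false_eq_true, if_false, if_true] at h
      exact absurd h.symm h2
    · simp only [hψ, Bool.false_eq_true, if_false, if_true] at h
      exact absurd h h2
    · rfl
  have hsurj : (univ : Finset (Fin (k * 2) × Bool)).image ψ
      = univ.filter (fun d : ZMod (4 * k + 1) => d ≠ 0) := by
    apply Finset.eq_of_subset_of_card_le
    · intro d hd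
      obtain ⟨p, _, rfl⟩ := Finset.mem_image.mp hd
      simp [hne p]
    · rw [Finset.card_image_of_injective _ hinj, Finset.filter_ne']
      simp [ZMod.card]
      omega
  have himg : univ.filter (fun d : ZMod (4 * k + 1) => d ≠ 0 ∧ (σ (cls k hk d)).1 = c)
      = (univ.filter (fun p : Fin (k * 2) × Bool => (σ p.1).1 = c)).image ψ := by
    ext d
    simp only [mem_filter, mem_univ, true_and, mem_image]
    constructor
    · rintro ⟨h1, h2⟩
      have h3 : d ∈ (univ : Finset (Fin (k * 2) × Bool)).image ψ := by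
        rw [hsurj]; simp [h1]
      obtain ⟨p, _, rfl⟩ := Finset.mem_image.mp h3
      rw [hcls] at h2
      exact ⟨p, h2, rfl⟩
    · rintro ⟨p, hp, rfl⟩
      refine ⟨hne p, by rw [hcls]; exact hp⟩
  rw [himg, Finset.card_image_of_injective _ hinj]
  have h5 : (univ.filter (fun p : Fin (k * 2) × Bool => (σ p.1).1 = c))
      = (univ.filter (fun j : Fin (k * 2) => (σ j).1 = c)) ×ˢ (univ : Finset Bool) := by
    ext p
    simp
  have h6 : (univ.filter (fun j : Fin (k * 2) => (σ j).1 = c)).card = 2 := by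
    have : (univ.filter (fun j : Fin (k * 2) => (σ j).1 = c)).card
        = ((univ : Finset (Fin 2)).image (fun b => (c, b))).card := by
      apply Finset.card_bij (fun j _ => σ j)
      · intro j hj
        simp only [mem_filter, mem_univ, true_and] at hj
        rw [Finset.mem_image]
        exact ⟨(σ j).2, mem_univ _, by rw [← hj]⟩
      · intro j _ j' _ h; exact σ.injective h
      · intro p hp
        obtain ⟨b, _, rfl⟩ := Finset.mem_image.mp hp
        exact ⟨σ.symm (c, b), by simp, by simp⟩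
    rw [this, Finset.card_image_of_injective _ (fun a b h => by simpa using h)]
    simp
  rw [h5, Finset.card_product, h6]
  simp

end cyc
/-! the statement -/

/-- A colouring of the edges of the complete graph on `n` vertices with `k` colours:
a symmetric map (its values on the diagonal carry no meaning and are never used). -/
structure EdgeColouring (n k : ℕ) where
  col : Fin n → Fin n → Fin k
  symm : ∀ x y, col x y = col y x

namespace EdgeColouring
variable {n k : ℕ}

/-- the number of edges at the vertex `x` that have colour `i` -/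
def deg (c : EdgeColouring n k) (x : Fin n) (i : Fin k) : ℕ :=
  (univ.filter (fun y => y ≠ x ∧ c.col x y = i)).card

/-- every colour appears at every vertex on at least `(1 - ε) n / k` edges -/
def Balanced (c : EdgeColouring n k) (ε : ℝ) : Prop :=
  ∀ (x : Fin n) (i : Fin k), (1 - ε) * n / k ≤ (c.deg x i : ℝ)

/-- every colour appears at every vertex on exactly `(n - 1) / k` edges -/
def CompletelyBalanced (c : EdgeColouring n k) : Prop :=
  ∀ (x : Fin n) (i : Fin k), c.deg x i * k + 1 = n

/-- there is a copy of `G` whose edges have pairwise distinct colours -/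
def HasRainbow {V : Type} (c : EdgeColouring n k) (G : SimpleGraph V) : Prop :=
  ∃ f : V ↪ Fin n, ∀ a b a' b' : V, G.Adj a b → G.Adj a' b' →
    c.col (f a) (f b) = c.col (f a') (f b') → s(a, b) = s(a', b')

end EdgeColouring

/-- the property of `G` asked for by Erdos and Tuza -/
def Forced {V : Type} (G : SimpleGraph V) : Prop :=
  ∃ ε : ℝ, 0 < ε ∧ ∃ n₀ : ℕ, ∀ n ≥ n₀, ∀ c : EdgeColouring n (G.edgeSet.ncard + 1),
    c.Balanced ε → c.HasRainbow G

/-- the general construction: `k` colours, no rainbow copy of `H` -/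
theorem main {W : Type} [Fintype W] (H : SimpleGraph W) {k : ℕ} (hk1 : 1 ≤ k)
    (hnum : (Fintype.card W * Fintype.card W * (4 * k + 1)) ^ Fintype.card W *
      (k.descFactorial H.edgeSet.ncard * 2 ^ H.edgeSet.ncard)
        < (k * 2).descFactorial H.edgeSet.ncard) (t : ℕ) :
    ∃ c : EdgeColouring ((4 * k + 1) ^ t) k, c.CompletelyBalanced ∧ ¬ c.HasRainbow H := by
  classical
  set v := Fintype.card W with hv
  have hEc : Fintype.card H.edgeSet = H.edgeSet.ncard := by
    rw [Set.ncard_eq_toFinset_card', Set.toFinset_card]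
  have g : W ≃ Fin v := Fintype.equivFinOfCardEq hv.symm
  set S := (univ : Finset (Fin v → Fin v → ZMod (4 * k + 1))).filter
      (fun D => ∃ x : Fin v → ℕ → ZMod (4 * k + 1), Function.Injective x ∧ D = pat x) with hS
  have hScard : S.card ≤ (v * v * (4 * k + 1)) ^ v := by
    have := card_patterns (A := ZMod (4 * k + 1)) v
    rw [ZMod.card] at this
    convert this
  have hn2 : S.card * (k.descFactorial (Fintype.card H.edgeSet) * 2 ^ (Fintype.card H.edgeSet))
      < (k * 2).descFactorial (Fintype.card H.edgeSet) := by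
    rw [hEc]
    exact lt_of_le_of_lt (Nat.mul_le_mul_right _ hScard) hnum
  have hrep : ∀ s : H.edgeSet, ∃ a b : W, s.1 = s(a, b) := by
    rintro ⟨s, hs⟩
    induction s using Sym2.ind with
    | _ a b => exact ⟨a, b, rfl⟩
  choose fa fb hab using hrep
  obtain ⟨σ, hσ⟩ := exists_sigma (E := H.edgeSet) (k := k) (Q := Fin (k * 2)) (by simp) S
    (fun D s => cls k hk1 (D (g (fa s)) (g (fb s)))) hn2
  set φ : ZMod (4 * k + 1) → Fin k := fun d => (σ (cls k hk1 d)).1 with hφ
  have gt : Fin ((4 * k + 1) ^ t) ≃ (Fin t → ZMod (4 * k + 1)) :=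
    (Fintype.equivFinOfCardEq (by simp [ZMod.card])).symm
  refine ⟨⟨fun x y => φ (lc (ext (gt x)) (ext (gt y))), ?_⟩, ?_, ?_⟩
  · intro x y
    simp only [hφ]
    rw [lc_comm, cls_neg]
  · intro x i
    have hb := balanced_count φ (r := 4) (fun c => by
      have := count_colour k hk1 σ c
      convert this) (by rw [ZMod.card]; ring) t (gt x) i
    rw [ZMod.card] at hb
    refine Eq.trans ?_ hb
    refine Eq.trans ?_ (congrArg (· + 1) (mul_comm _ _))
    congr 2
    unfold EdgeColouring.deg
    apply Finset.card_bij (fun y _ => gt y)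
    · intro y hy
      simp only [mem_filter, mem_univ, true_and] at hy ⊢
      exact ⟨fun h => hy.1 (gt.injective h), hy.2⟩
    · intro y _ y' _ hh; exact gt.injective hh
    · intro z hz
      simp only [mem_filter, mem_univ, true_and] at hz
      refine ⟨gt.symm z, ?_, by simp⟩
      simp only [mem_filter, mem_univ, true_and, Equiv.apply_symm_apply]
      exact ⟨fun h => hz.1 (by rw [← h]; simp), hz.2⟩
  · rintro ⟨f, hf⟩
    set x : Fin v → ℕ → ZMod (4 * k + 1) := fun i => ext (gt (f (g.symm i))) with hx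
    have hxinj : Function.Injective x := by
      intro i j hij
      exact g.symm.injective (f.injective (gt.injective (ext_injective hij)))
    have hmem : pat x ∈ S := mem_filter.mpr ⟨mem_univ _, x, hxinj, rfl⟩
    apply hσ _ hmem
    intro s s' hss
    apply Subtype.ext
    rw [hab s, hab s']
    apply hf
    · rw [← SimpleGraph.mem_edgeSet, ← hab s]; exact s.2
    · rw [← SimpleGraph.mem_edgeSet, ← hab s']; exact s'.2
    · have e1 : ∀ s : H.edgeSet, pat x (g (fa s)) (g (fb s))
          = lc (ext (gt (f (fa s)))) (ext (gt (f (fb s)))) := by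
        intro s
        simp only [pat, hx, Equiv.symm_apply_apply]
      simp only [e1] at hss
      exact hss

/-- completely balanced colourings without rainbow `G` on arbitrarily large complete graphs
refute the property -/
theorem not_forced {V : Type} (G : SimpleGraph V)
    (hc : ∀ t : ℕ, ∃ c : EdgeColouring ((4 * (G.edgeSet.ncard + 1) + 1) ^ t) (G.edgeSet.ncard + 1),
      c.CompletelyBalanced ∧ ¬ c.HasRainbow G) : ¬ Forced G := by
  rintro ⟨ε, hε, n₀, hn⟩
  obtain ⟨t, ht⟩ : ∃ t : ℕ, n₀ ≤ t ∧ 1 / ε ≤ t := by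
    obtain ⟨t, ht⟩ := exists_nat_ge (1 / ε)
    exact ⟨max n₀ t, le_max_left _ _, ht.trans (by exact_mod_cast le_max_right _ _)⟩
  obtain ⟨c, hc, hr⟩ := hc t
  have hlt : t < (4 * (G.edgeSet.ncard + 1) + 1) ^ t := Nat.lt_pow_self (by omega)
  apply hr
  apply hn _ (ht.1.trans hlt.le) c
  intro x i
  have h1 := hc x i
  have h2 : (c.deg x i : ℝ) * ((G.edgeSet.ncard + 1 : ℕ) : ℝ) + 1
      = (((4 * (G.edgeSet.ncard + 1) + 1) ^ t : ℕ) : ℝ) := by
    exact_mod_cast h1
  have hk : (0 : ℝ) < ((G.edgeSet.ncard + 1 : ℕ) : ℝ) := by positivity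
  rw [div_le_iff₀ hk]
  have h3 : (t : ℝ) ≤ (((4 * (G.edgeSet.ncard + 1) + 1) ^ t : ℕ) : ℝ) := by
    exact_mod_cast hlt.le
  have h4 : 1 ≤ ε * (((4 * (G.edgeSet.ncard + 1) + 1) ^ t : ℕ) : ℝ) := by
    have h5 := ht.2.trans h3
    rw [div_le_iff₀ hε] at h5
    linarith
  linarith

/-- a rainbow copy of `G` contains a rainbow copy of each of its induced subgraphs -/
theorem hasRainbow_induce {V : Type} {n k : ℕ} (c : EdgeColouring n k) (G : SimpleGraph V)
    (S : Set V) (h : c.HasRainbow G) : c.HasRainbow (G.induce S) := by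
  obtain ⟨f, hf⟩ := h
  refine ⟨(Function.Embedding.subtype _).trans f, ?_⟩
  intro a b a' b' h1 h2 h3
  have h4 := hf a b a' b' h1 h2 h3
  rw [Sym2.eq_iff] at h4 ⊢
  rcases h4 with h4 | h4
  · left; exact ⟨Subtype.ext h4.1, Subtype.ext h4.2⟩
  · right; exact ⟨Subtype.ext h4.1, Subtype.ext h4.2⟩
theorem ratio_bound {k : ℕ} (hk : 1 ≤ k) (n : ℕ) :
    ((k.descFactorial n : ℕ) : ℝ) * 2 ^ n
      ≤ (((k * 2).descFactorial n : ℕ) : ℝ) * Real.exp (-((n : ℝ) * (n - 1) / (4 * k))) := by
  have hk0 : (0 : ℝ) < k := by exact_mod_cast hk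
  induction n with
  | zero => simp
  | succ n ih =>
    rw [Nat.descFactorial_succ, Nat.descFactorial_succ]
    by_cases hn : k ≤ n
    · rw [Nat.sub_eq_zero_of_le hn]
      simp only [zero_mul, Nat.cast_zero]
      positivity
    · push Not at hn
      have e1 : ((k - n : ℕ) : ℝ) = (k : ℝ) - n := by
        rw [Nat.cast_sub hn.le]
      have e2 : ((k * 2 - n : ℕ) : ℝ) = (k : ℝ) * 2 - n := by
        rw [Nat.cast_sub (by omega)]; push_cast; ring
      have e3 : Real.exp (-(((n + 1 : ℕ) : ℝ) * (((n + 1 : ℕ) : ℝ) - 1) / (4 * k)))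
          = Real.exp (-((n : ℝ) * (n - 1) / (4 * k))) * Real.exp (-((n : ℝ) / (2 * k))) := by
        rw [← Real.exp_add]
        congr 1
        push_cast
        field_simp
        ring
      rw [e3]
      push_cast
      rw [e1, e2]
      have hnk : (n : ℝ) < k := by exact_mod_cast hn
      have hn0 : (0 : ℝ) ≤ n := Nat.cast_nonneg n
      have h1 : 2 * ((k : ℝ) - n) ≤ ((k : ℝ) * 2 - n) * Real.exp (-((n : ℝ) / (2 * k))) := by
        have h2 := Real.add_one_le_exp (-((n : ℝ) / (2 * k)))
        have h3 : ((k : ℝ) * 2 - n) * (-((n : ℝ) / (2 * k)) + 1) ≤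
            ((k : ℝ) * 2 - n) * Real.exp (-((n : ℝ) / (2 * k))) :=
          mul_le_mul_of_nonneg_left h2 (by linarith)
        have h4 : ((k : ℝ) * 2 - n) * (-((n : ℝ) / (2 * k)) + 1)
            = 2 * ((k : ℝ) - n) + (n : ℝ) ^ 2 / (2 * k) := by
          field_simp
          ring
        have h5 : 0 ≤ (n : ℝ) ^ 2 / (2 * k) := by positivity
        linarith
      calc ((k : ℝ) - n) * (k.descFactorial n : ℝ) * 2 ^ (n + 1)
          = (2 * ((k : ℝ) - n)) * ((k.descFactorial n : ℝ) * 2 ^ n) := by rw [pow_succ]; ring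
        _ ≤ (((k : ℝ) * 2 - n) * Real.exp (-((n : ℝ) / (2 * k)))) *
            (((k * 2).descFactorial n : ℝ) * Real.exp (-((n : ℝ) * (n - 1) / (4 * k)))) := by
            apply mul_le_mul h1 ih (by positivity)
            apply mul_nonneg (by linarith) (Real.exp_pos _).le
        _ = _ := by ring

theorem numeric3 {e e' w : ℕ} (he : 2 ≤ e) (hw : 1 ≤ w) (hle : e' ≤ e)
    (h : 14 * (e : ℝ) * w * Real.log e ≤ (e' : ℝ) ^ 2) :
    (w : ℝ) * Real.log ((w : ℝ) * w * (4 * ((e + 1 : ℕ) : ℝ) + 1))
      < (e' : ℝ) * (e' - 1) / (4 * ((e + 1 : ℕ) : ℝ)) := by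
  set L := Real.log e with hL
  have hl2 := Real.log_two_gt_d9
  have he0 : (2 : ℝ) ≤ e := by exact_mod_cast he
  have hw0 : (1 : ℝ) ≤ w := by exact_mod_cast hw
  have hle' : (e' : ℝ) ≤ e := by exact_mod_cast hle
  have hL2 : Real.log 2 ≤ L := Real.log_le_log (by norm_num) he0
  have hLpos : 0 < L := by linarith
  have he'0 : (0 : ℝ) ≤ e' := Nat.cast_nonneg _
  have he'pos : (0 : ℝ) < e' := by
    rcases he'0.lt_or_eq with h1 | h1
    · exact h1
    · rw [← h1] at h
      have : 0 < 14 * (e : ℝ) * w * L := by positivity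
      norm_num at h
      linarith
  have h14 : 14 * (w : ℝ) * L ≤ e' := by
    have h1 : 14 * (e' : ℝ) * w * L ≤ (e' : ℝ) ^ 2 := by
      refine le_trans ?_ h
      have : 0 ≤ (w : ℝ) * L := by positivity
      nlinarith
    have h2 : (e' : ℝ) * (14 * (w : ℝ) * L) ≤ e' * e' := by nlinarith
    exact le_of_mul_le_mul_left h2 he'pos
  have h14e : 14 * (w : ℝ) * L ≤ e := h14.trans hle'
  have h14L : 14 * L ≤ e := by
    refine le_trans ?_ h14e
    have : 0 ≤ ((w : ℝ) - 1) * L := mul_nonneg (by linarith) hLpos.le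
    nlinarith
  -- bootstrapping the size of `e`
  have b1 : (8 : ℝ) ≤ e := by linarith
  have c1 : 3 * Real.log 2 ≤ L := by
    have : Real.log ((2 : ℝ) ^ 3) ≤ L := Real.log_le_log (by norm_num) (by norm_num; exact_mod_cast b1)
    rwa [Real.log_pow] at this
  have b2 : (16 : ℝ) ≤ e := by linarith
  have c2 : 4 * Real.log 2 ≤ L := by
    have : Real.log ((2 : ℝ) ^ 4) ≤ L := Real.log_le_log (by norm_num) (by norm_num; exact_mod_cast b2)
    rwa [Real.log_pow] at this
  have b3 : (32 : ℝ) ≤ e := by linarith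
  have c3 : 5 * Real.log 2 ≤ L := by
    have : Real.log ((2 : ℝ) ^ 5) ≤ L := Real.log_le_log (by norm_num) (by norm_num; exact_mod_cast b3)
    rwa [Real.log_pow] at this
  have hL3 : (3.46 : ℝ) ≤ L := by linarith
  have b4 : (48 : ℝ) ≤ e := by linarith
  have hwL : 48 * (w : ℝ) ≤ 14 * (w : ℝ) * L := by nlinarith
  have hwe : 48 * (w : ℝ) ≤ e := hwL.trans h14e
  have he'48 : (48 : ℝ) ≤ e' := by nlinarith
  -- the logarithm
  have hlog : Real.log ((w : ℝ) * w * (4 * ((e + 1 : ℕ) : ℝ) + 1)) ≤ 3 * L := by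
    have h1 : (w : ℝ) * w * (4 * ((e + 1 : ℕ) : ℝ) + 1) ≤ (e : ℝ) ^ 3 := by
      push_cast
      have h2 : (w : ℝ) * w ≤ (e / 48) * (e / 48) := by
        apply mul_self_le_mul_self (by linarith)
        linarith
      have h3 : 4 * ((e : ℝ) + 1) + 1 ≤ 5 * e := by linarith
      calc (w : ℝ) * w * (4 * ((e : ℝ) + 1) + 1) ≤ ((e / 48) * (e / 48)) * (5 * e) :=
            mul_le_mul h2 h3 (by positivity) (by positivity)
        _ = (e : ℝ) ^ 3 * (5 / 2304) := by ring
        _ ≤ (e : ℝ) ^ 3 * 1 := by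
            apply mul_le_mul_of_nonneg_left (by norm_num) (by positivity)
        _ = _ := by ring
    have h4 : Real.log ((w : ℝ) * w * (4 * ((e + 1 : ℕ) : ℝ) + 1)) ≤ Real.log ((e : ℝ) ^ 3) :=
      Real.log_le_log (by positivity) h1
    rw [Real.log_pow] at h4
    exact_mod_cast h4
  have hmain : (w : ℝ) * (3 * L) < (e' : ℝ) * (e' - 1) / (4 * ((e + 1 : ℕ) : ℝ)) := by
    rw [lt_div_iff₀ (by positivity)]
    push_cast
    set X := (w : ℝ) * L with hX
    have hXpos : 0 < X := by positivity
    have h5 : 14 * (e : ℝ) * X ≤ (e' : ℝ) ^ 2 := by rw [hX]; linarith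
    -- e' (e' - 1) ≥ (47/48) e'^2
    have h6 : (e' : ℝ) * (e' - 1) ≥ (47 / 48) * (e' : ℝ) ^ 2 := by nlinarith
    have h7 : (w : ℝ) * (3 * L) * (4 * ((e : ℝ) + 1)) = 12 * X * (e + 1) := by rw [hX]; ring
    rw [h7]
    have h8 : 12 * X * ((e : ℝ) + 1) ≤ 12 * X * (e * (49 / 48)) := by
      apply mul_le_mul_of_nonneg_left _ (by positivity)
      linarith
    have h9 : 0 < (e : ℝ) * X := by positivity
    nlinarith
  calc (w : ℝ) * Real.log ((w : ℝ) * w * (4 * ((e + 1 : ℕ) : ℝ) + 1)) ≤ w * (3 * L) :=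
        mul_le_mul_of_nonneg_left hlog (by linarith)
    _ < _ := hmain

theorem ncard_induce_le {V : Type} [Fintype V] (G : SimpleGraph V) (S : Set V) :
    (G.induce S).edgeSet.ncard ≤ G.edgeSet.ncard := by
  classical
  apply Set.ncard_le_ncard_of_injOn (Sym2.map Subtype.val)
  · intro s hs
    induction s using Sym2.ind with
    | _ a b =>
      rw [SimpleGraph.mem_edgeSet] at hs
      rw [Sym2.map_mk, SimpleGraph.mem_edgeSet]
      exact hs
  · intro s _ s' _ h
    exact Sym2.map.injective Subtype.val_injective h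

/-- If some nonempty set `S` of vertices of `G` spans `e(S)` edges with
`14 e |S| ln e ≤ e(S) ^ 2`, where `e` is the number of edges of `G`, then `G` fails the Erdos-Tuza
property, even for colourings in which all colour classes are regular of the same degree. -/
theorem result {V : Type} [Fintype V] (G : SimpleGraph V) (he : 2 ≤ G.edgeSet.ncard)
    (S : Finset V) (hS : S.Nonempty)
    (h : 14 * (G.edgeSet.ncard : ℝ) * S.card * Real.log G.edgeSet.ncard
      ≤ ((G.induce (S : Set V)).edgeSet.ncard : ℝ) ^ 2) :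
    (∀ t : ℕ, ∃ c : EdgeColouring ((4 * (G.edgeSet.ncard + 1) + 1) ^ t) (G.edgeSet.ncard + 1),
      c.CompletelyBalanced ∧ ¬ c.HasRainbow G) ∧ ¬ Forced G := by
  classical
  have hle := ncard_induce_le G (S : Set V)
  set e := G.edgeSet.ncard with hedef
  set e' := (G.induce (S : Set V)).edgeSet.ncard with he'
  have hw : 1 ≤ S.card := hS.card_pos
  have h1 := numeric3 he hw hle h
  have hcard : Fintype.card (↥(S : Set V)) = S.card := by simp
  have hnum : (Fintype.card (↥(S : Set V)) * Fintype.card (↥(S : Set V)) * (4 * (e + 1) + 1))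
      ^ Fintype.card (↥(S : Set V)) * ((e + 1).descFactorial e' * 2 ^ e')
        < ((e + 1) * 2).descFactorial e' := by
    rw [hcard]
    have h2 := ratio_bound (show 1 ≤ e + 1 by omega) e'
    have hdpos : 0 < ((e + 1) * 2).descFactorial e' := Nat.descFactorial_pos.mpr (by omega)
    have hdpos' : (0 : ℝ) < (((e + 1) * 2).descFactorial e' : ℕ) := by exact_mod_cast hdpos
    have hw0 : (0 : ℝ) < (S.card : ℝ) := by exact_mod_cast hw
    set B : ℝ := (S.card : ℝ) * S.card * (4 * ((e + 1 : ℕ) : ℝ) + 1) with hB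
    have hBpos : 0 < B := by positivity
    have h3 : B ^ S.card < Real.exp ((e' : ℝ) * (e' - 1) / (4 * ((e + 1 : ℕ) : ℝ))) := by
      have : B ^ S.card = Real.exp ((S.card : ℝ) * Real.log B) := by
        rw [mul_comm, ← Real.rpow_def_of_pos hBpos, Real.rpow_natCast]
      rw [this]
      exact Real.exp_lt_exp.mpr h1
    have h4 : B ^ S.card * ((((e + 1).descFactorial e' : ℕ) : ℝ) * 2 ^ e')
        < (((e + 1) * 2).descFactorial e' : ℕ) := by
      calc B ^ S.card * ((((e + 1).descFactorial e' : ℕ) : ℝ) * 2 ^ e')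
          ≤ B ^ S.card * ((((e + 1) * 2).descFactorial e' : ℕ) *
              Real.exp (-((e' : ℝ) * (e' - 1) / (4 * ((e + 1 : ℕ) : ℝ))))) :=
            mul_le_mul_of_nonneg_left h2 (by positivity)
        _ < Real.exp ((e' : ℝ) * (e' - 1) / (4 * ((e + 1 : ℕ) : ℝ))) *
            ((((e + 1) * 2).descFactorial e' : ℕ) *
              Real.exp (-((e' : ℝ) * (e' - 1) / (4 * ((e + 1 : ℕ) : ℝ))))) :=
            mul_lt_mul_of_pos_right h3 (by positivity)
        _ = _ := by
            rw [mul_left_comm, ← Real.exp_add, add_neg_cancel, Real.exp_zero, mul_one]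
    have h5 : (((S.card * S.card * (4 * (e + 1) + 1)) ^ S.card *
        ((e + 1).descFactorial e' * 2 ^ e') : ℕ) : ℝ)
        < ((((e + 1) * 2).descFactorial e' : ℕ) : ℝ) := by
      push_cast
      push_cast [hB] at h4
      exact h4
    exact_mod_cast h5
  have hm : ∀ t : ℕ, ∃ c : EdgeColouring ((4 * (e + 1) + 1) ^ t) (e + 1),
      c.CompletelyBalanced ∧ ¬ c.HasRainbow G := by
    intro t
    obtain ⟨c, hc1, hc2⟩ := main (G.induce (S : Set V)) (show 1 ≤ e + 1 by omega) hnum t
    exact ⟨c, hc1, fun hr => hc2 (hasRainbow_induce c G (S : Set V) hr)⟩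
  exact ⟨hm, not_forced G hm⟩

end Pool.Agent.Results.MP_b1acb3_co.DenseSpot
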